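import Pool.Agent.U722.UG.Form
import Pool.Agent.U722.OG.Bld

/-!
# The tree of the unitary group of a form of Witt index one
-/

set_option autoImplicit false

namespace Pool.Agent.U722.UG

open Pool.Agent.U709.BT
open Pool.Agent.U722.OG (E e₁ e₂ Lw Lat Lw_zero Lw_add Lw_neg Lw_smul Lw_mono Lat_zero Lat_add Lat_smul
  Lat_mono v_pow exists_v bnd e₃ decomp L_pow L_pow_inv L_w L_winv unit_of split3)

variable {F : Type} [Field F] (V : DV F) {m : ℕ} (τ : F →+* F) (A : Matrix (Fin m) (Fin m) F)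

/-- `A` is hermitian, integral and anisotropic with respect to the valuation -/
structure An : Prop where
  inv : ∀ r, τ (τ r) = r
  vt : ∀ r, V.v (τ r) = V.v r
  wt : τ V.w = V.w
  herm : ∀ i j, τ (A i j) = A j i
  int : ∀ i j, V.L 0 (A i j)
  an : ∀ w : Fin m → F, w ≠ 0 → ∃ i, w i ≠ 0 ∧ hf τ A w w ≠ 0 ∧
    V.v (hf τ A w w) = 2 * V.v (w i) ∧ ∀ j, w j ≠ 0 → V.v (w i) ≤ V.v (w j)

/-- the second lattice -/
def Lt (v : E F m) : Prop := V.L (-1) v.1 ∧ V.L 0 v.2.1 ∧ Lw V 0 v.2.2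

variable {V τ A}

theorem An.L (hA : An V τ A) {n : ℤ} {x : F} (h : V.L n x) : V.L n (τ x) := by
  intro hx
  have h1 : x ≠ 0 := by
    rintro rfl
    exact hx (map_zero τ)
  rw [hA.vt]
  exact h h1

theorem L_sum {ι : Type} (s : Finset ι) {n : ℤ} (f : ι → F) (h : ∀ i ∈ s, V.L n (f i)) :
    V.L n (∑ i ∈ s, f i) := by
  classical
  induction s using Finset.induction_on with
  | empty => exact V.L_zero n
  | insert a s ha ih =>
    rw [Finset.sum_insert ha]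
    exact DV.L_add (h _ (Finset.mem_insert_self _ _))
      (ih fun i hi => h i (Finset.mem_insert_of_mem hi))

theorem hf_L (hA : An V τ A) {a b : ℤ} {w w' : Fin m → F} (h : Lw V a w) (h' : Lw V b w') :
    V.L (a + b) (hf τ A w w') := by
  unfold hf
  refine L_sum _ _ fun i _ => L_sum _ _ fun j _ => ?_
  have := DV.L_mul (DV.L_mul (hA.int i j) (hA.L (h i))) (h' j)
  rwa [zero_add] at this

theorem Lw_iff (hA : An V τ A) (n : ℤ) (w : Fin m → F) :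
    Lw V n w ↔ V.L (2 * n) (hf τ A w w) := by
  by_cases hw : w = 0
  · rw [hw, hf_zero]
    exact ⟨fun _ => V.L_zero _, fun _ => Lw_zero n⟩
  obtain ⟨i, hi, hq, hv, hmin⟩ := hA.an w hw
  constructor
  · intro h _
    have := h i hi
    omega
  · intro h j hj
    have h1 := h hq
    have h2 := hmin j hj
    omega

theorem Lw_of_odd (hA : An V τ A) {n : ℤ} {w : Fin m → F} (h : V.L (2 * n + 1) (hf τ A w w)) :
    Lw V (n + 1) w := by
  by_cases hw : w = 0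
  · rw [hw]
    exact Lw_zero _
  obtain ⟨i, hi, hq, hv, hmin⟩ := hA.an w hw
  intro j hj
  have h1 := h hq
  have h2 := hmin j hj
  omega

theorem hf_ne (hA : An V τ A) {w : Fin m → F} (hw : hf τ A w w = 0) : w = 0 := by
  by_contra h
  obtain ⟨i, -, h2, -⟩ := hA.an w h
  exact h2 hw

variable (V τ A)

/-- the stabilizer of the lattice `L₀` -/
def Kg : Subgroup (Iso τ A) where
  carrier := {g | (∀ v, Lat V 0 v → Lat V 0 (g.1 v)) ∧ ∀ v, Lat V 0 v → Lat V 0 ((g⁻¹).1 v)}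
  one_mem' := ⟨fun _ h => h, fun v h => by rw [inv_one]; exact h⟩
  mul_mem' := by
    rintro g h ⟨h1, h2⟩ ⟨h3, h4⟩
    refine ⟨fun v hv => h1 _ (h3 _ hv), fun v hv => ?_⟩
    rw [mul_inv_rev]
    exact h4 _ (h2 _ hv)
  inv_mem' := by
    rintro g ⟨h1, h2⟩
    exact ⟨h2, fun v hv => by rw [inv_inv]; exact h1 _ hv⟩

/-- the stabilizer of the second lattice -/
def Kt : Subgroup (Iso τ A) where
  carrier := {g | (∀ v, Lt V v → Lt V (g.1 v)) ∧ ∀ v, Lt V v → Lt V ((g⁻¹).1 v)}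
  one_mem' := ⟨fun _ h => h, fun v h => by rw [inv_one]; exact h⟩
  mul_mem' := by
    rintro g h ⟨h1, h2⟩ ⟨h3, h4⟩
    refine ⟨fun v hv => h1 _ (h3 _ hv), fun v hv => ?_⟩
    rw [mul_inv_rev]
    exact h4 _ (h2 _ hv)
  inv_mem' := by
    rintro g ⟨h1, h2⟩
    exact ⟨h2, fun v hv => by rw [inv_inv]; exact h1 _ hv⟩

/-- the stabilizer of the line of `e₁` -/
def Bg : Subgroup (Iso τ A) where
  carrier := {g | (g.1 (e₁ F m)).2 = 0}
  one_mem' := rfl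
  mul_mem' := by
    intro g h hg hh
    have h1 : h.1 (e₁ F m) = (h.1 (e₁ F m)).1 • e₁ F m := by
      refine Prod.ext ?_ ?_
      · simp [e₁]
      · rw [show (h.1 (e₁ F m)).2 = 0 from hh]
        simp [e₁]
        rfl
    change (g.1 (h.1 (e₁ F m))).2 = 0
    rw [h1, map_smul, Prod.smul_snd, show (g.1 (e₁ F m)).2 = 0 from hg, smul_zero]
  inv_mem' := by
    intro g hg
    have h1 : g.1 (e₁ F m) = (g.1 (e₁ F m)).1 • e₁ F m := by
      refine Prod.ext ?_ ?_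
      · simp [e₁]
      · rw [show (g.1 (e₁ F m)).2 = 0 from hg]
        simp [e₁]
        rfl
    obtain ⟨a, ha⟩ : ∃ a, a = (g.1 (e₁ F m)).1 := ⟨_, rfl⟩
    rw [← ha] at h1
    have h2 : e₁ F m = a • (g⁻¹).1 (e₁ F m) := by
      rw [← map_smul, ← h1, Iso.inv_apply]
    have ha0 : a ≠ 0 := by
      rintro rfl
      rw [zero_smul] at h2
      have := congrArg Prod.fst h2
      simp [e₁] at this
    change ((g⁻¹).1 (e₁ F m)).2 = 0
    have h3 := congrArg Prod.snd h2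
    rw [Prod.smul_snd] at h3
    have h4 : a • ((g⁻¹).1 (e₁ F m)).2 = 0 := h3.symm
    exact (smul_eq_zero.1 h4).resolve_left ha0

variable {V τ A}

theorem mem_Bg {g : Iso τ A} : g ∈ Bg τ A ↔ (g.1 (e₁ F m)).2 = 0 := Iff.rfl

theorem Bg_apply {g : Iso τ A} (hg : g ∈ Bg τ A) :
    g.1 (e₁ F m) = (g.1 (e₁ F m)).1 • e₁ F m := by
  refine Prod.ext ?_ ?_
  · simp [e₁]
  · rw [mem_Bg.1 hg]
    simp [e₁]
    rfl

theorem Bg_ne {g : Iso τ A} (hg : g ∈ Bg τ A) : (g.1 (e₁ F m)).1 ≠ 0 := by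
  intro h
  have h1 := Bg_apply hg
  rw [h, zero_smul] at h1
  have h2 := Iso.inv_apply g (e₁ F m)
  rw [h1, map_zero] at h2
  have := congrArg Prod.fst h2
  simp [e₁] at this

theorem Bg_mul {g h : Iso τ A} (hh : h ∈ Bg τ A) :
    ((g * h).1 (e₁ F m)).1 = (h.1 (e₁ F m)).1 * (g.1 (e₁ F m)).1 := by
  rw [Iso.mul_apply, Bg_apply hh, map_smul, Prod.smul_fst, smul_eq_mul, ← Bg_apply hh]

theorem Lat_e₁ : Lat V 0 (e₁ F m) := ⟨V.L_one, V.L_zero 0, Lw_zero 0⟩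

theorem Lat_e₂ : Lat V 0 (e₂ F m) := ⟨V.L_zero 0, V.L_one, Lw_zero 0⟩

theorem Lat_e₃ {w : Fin m → F} {n : ℤ} (hw : Lw V n w) : Lat V n ((0, 0, w) : E F m) :=
  ⟨V.L_zero n, V.L_zero n, hw⟩

theorem Lt_of_Lat {v : E F m} (h : Lat V 0 v) : Lt V v :=
  ⟨DV.L_mono (by norm_num) h.1, h.2.1, h.2.2⟩

theorem Lt_add {v v' : E F m} (h : Lt V v) (h' : Lt V v') : Lt V (v + v') :=
  ⟨DV.L_add h.1 h'.1, DV.L_add h.2.1 h'.2.1, Lw_add h.2.2 h'.2.2⟩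

theorem L_winv1 : V.L (-1) V.w⁻¹ := fun _ => by rw [V.v_inv V.w_ne, V.v_w]

/-- the translation -/
noncomputable def tl (hA : An V τ A) : Iso τ A :=
  dg τ A V.w⁻¹ (inv_ne_zero V.w_ne) (by rw [map_inv₀, hA.wt])

theorem tl_apply (hA : An V τ A) (v : E F m) :
    (tl hA).1 v = (V.w⁻¹ * v.1, V.w * v.2.1, v.2.2) := by
  unfold tl
  rw [dg_apply, inv_inv]

theorem tl_inv_apply (hA : An V τ A) (v : E F m) :
    ((tl hA)⁻¹).1 v = (V.w * v.1, V.w⁻¹ * v.2.1, v.2.2) := by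
  unfold tl
  rw [dg_inv_apply, inv_inv]

theorem tl_pow_apply (hA : An V τ A) (n : ℕ) (v : E F m) :
    ((tl hA) ^ n).1 v = ((V.w ^ n)⁻¹ * v.1, V.w ^ n * v.2.1, v.2.2) := by
  induction n with
  | zero =>
    rw [pow_zero, pow_zero, inv_one, one_mul, one_mul]
    rfl
  | succ n ih =>
    rw [pow_succ', Iso.mul_apply, ih, tl_apply]
    refine Prod.ext ?_ (Prod.ext ?_ rfl)
    · simp only
      rw [pow_succ, mul_inv]
      ring
    · simp only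
      rw [pow_succ]
      ring

theorem tl_pow_inv_apply (hA : An V τ A) (n : ℕ) (v : E F m) :
    (((tl hA) ^ n)⁻¹).1 v = (V.w ^ n * v.1, (V.w ^ n)⁻¹ * v.2.1, v.2.2) := by
  have h := Iso.inv_apply ((tl hA) ^ n) (V.w ^ n * v.1, (V.w ^ n)⁻¹ * v.2.1, v.2.2)
  rw [tl_pow_apply] at h
  have hw : V.w ^ n ≠ 0 := pow_ne_zero _ V.w_ne
  have e : ((V.w ^ n)⁻¹ * (V.w ^ n * v.1), V.w ^ n * ((V.w ^ n)⁻¹ * v.2.1), v.2.2) = v := by
    refine Prod.ext ?_ (Prod.ext ?_ rfl)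
    · simp only
      rw [inv_mul_cancel_left₀ hw]
    · simp only
      rw [mul_inv_cancel_left₀ hw]
  rwa [e] at h

/-- the image of `e₁` is isotropic -/
theorem isot (g : Iso τ A) {x y : F} {w : Fin m → F} (h : g.1 (e₁ F m) = (x, y, w)) :
    τ x * y + τ y * x + hf τ A w w = 0 := by
  have h1 := g.2 (e₁ F m) (e₁ F m)
  rw [h] at h1
  have h2 : H τ A (e₁ F m) (e₁ F m) = 0 := by rw [H_e₁]; rfl
  rw [h2] at h1
  exact h1

theorem symm_entry (hA : An V τ A) (g : Iso τ A) :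
    ((g⁻¹).1 (e₁ F m)).2.1 = τ (g.1 (e₁ F m)).2.1 := by
  rw [← H_e₁ τ A ((g⁻¹).1 (e₁ F m)), Iso.adj', ← H_star hA.inv hA.herm (e₁ F m), H_e₁]

/-- elements of the parahoric subgroup -/
theorem crit01 (hA : An V τ A) {g : Iso τ A} (hg : g ∈ Kg V τ A)
    (h1 : V.L 1 (g.1 (e₁ F m)).2.1) (v : E F m) (hv : Lt V v) : Lt V (g.1 v) := by
  obtain ⟨x, hx⟩ : ∃ x, x = (g.1 (e₁ F m)).1 := ⟨_, rfl⟩
  obtain ⟨y, hy⟩ : ∃ y, y = (g.1 (e₁ F m)).2.1 := ⟨_, rfl⟩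
  obtain ⟨w, hw⟩ : ∃ w, w = (g.1 (e₁ F m)).2.2 := ⟨_, rfl⟩
  have hge : g.1 (e₁ F m) = (x, y, w) := by rw [hx, hy, hw]
  have hLe := hg.1 _ Lat_e₁
  rw [hge] at hLe h1
  obtain ⟨hLx, hLy, hLw⟩ := hLe
  simp only at hLx hLy hLw h1
  have hq0 := isot g hge
  have hw1 : Lw V 1 w := by
    have : V.L (2 * 0 + 1) (hf τ A w w) := by
      have e : hf τ A w w = - (τ x * y + τ y * x) := by linear_combination hq0
      rw [e]
      refine DV.L_neg (DV.L_add ?_ ?_)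
      · exact DV.L_mono (by norm_num) (DV.L_mul (hA.L hLx) h1)
      · exact DV.L_mono (by norm_num) (DV.L_mul (hA.L h1) hLx)
    exact Lw_of_odd hA this
  obtain ⟨v0, hv0⟩ : ∃ v0 : E F m, v0 = (0, v.2.1, v.2.2) := ⟨_, rfl⟩
  have hL0 : Lat V 0 v0 := by
    rw [hv0]
    exact ⟨V.L_zero 0, hv.2.1, hv.2.2⟩
  have e : v = v.1 • e₁ F m + v0 := by
    rw [hv0]
    refine Prod.ext ?_ (Prod.ext ?_ ?_) <;> simp [e₁]
  rw [e, map_add, map_smul]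
  refine Lt_add ?_ (Lt_of_Lat (hg.1 _ hL0))
  rw [hge]
  refine ⟨?_, ?_, ?_⟩
  · exact DV.L_mono (by norm_num) (DV.L_mul hv.1 hLx)
  · exact DV.L_mono (by norm_num) (DV.L_mul hv.1 h1)
  · exact Lw_mono (by norm_num) (Lw_smul hv.1 hw1)

theorem crit0 (hA : An V τ A) {g : Iso τ A} (hg : g ∈ Kg V τ A)
    (h1 : V.L 1 (g.1 (e₁ F m)).2.1) : g ∈ Kt V τ A := by
  refine ⟨crit01 hA hg h1, crit01 hA (inv_mem hg) ?_⟩
  rw [symm_entry hA]
  exact hA.L h1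

theorem nrm₀ (hA : An V τ A) {g : Iso τ A} (hg : g ∈ Kg V τ A) (h1 : g ∈ Bg τ A) :
    g ∈ Kt V τ A := by
  refine crit0 hA hg ?_
  rw [mem_Bg.1 h1]
  exact V.L_zero 1

theorem ei_mem (hA : An V τ A) {u : Fin m → F} {c : F} (h : c + τ c = - hf τ A u u)
    (hu : Lw V 0 u) (hc : V.L 0 c) : ei hA.inv hA.herm u c h ∈ Kg V τ A := by
  have key : ∀ (u : Fin m → F) (c : F), Lw V 0 u → V.L 0 c → ∀ v, Lat V 0 v →
      Lat V 0 (eiF τ A u c v) := by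
    intro u c hu hc v hv
    refine ⟨?_, hv.2.1, ?_⟩
    · refine DV.L_sub (DV.L_add hv.1 ?_) ?_
      · exact DV.L_mono (by norm_num) (DV.L_mul hv.2.1 hc)
      · exact DV.L_mono (by norm_num) (hf_L hA hu hv.2.2)
    · exact Lw_add hv.2.2 (Lw_mono (by norm_num) (Lw_smul hv.2.1 hu))
  exact ⟨key u c hu hc, key (-u) (τ c) (Lw_neg hu) (hA.L hc)⟩

theorem ei_mem_t (hA : An V τ A) {u : Fin m → F} {c : F} (h : c + τ c = - hf τ A u u)
    (hu : Lw V 0 u) (hc : V.L (-1) c) : ei hA.inv hA.herm u c h ∈ Kt V τ A := by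
  have key : ∀ (u : Fin m → F) (c : F), Lw V 0 u → V.L (-1) c → ∀ v, Lt V v →
      Lt V (eiF τ A u c v) := by
    intro u c hu hc v hv
    refine ⟨?_, hv.2.1, ?_⟩
    · refine DV.L_sub (DV.L_add hv.1 ?_) ?_
      · exact DV.L_mono (by norm_num) (DV.L_mul hv.2.1 hc)
      · exact DV.L_mono (by norm_num) (hf_L hA hu hv.2.2)
    · exact Lw_add hv.2.2 (Lw_mono (by norm_num) (Lw_smul hv.2.1 hu))
  exact ⟨key u c hu hc, key (-u) (τ c) (Lw_neg hu) (hA.L hc)⟩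

theorem sw_mem : sw τ A ∈ Kg V τ A :=
  ⟨fun _ hv => ⟨hv.2.1, hv.1, hv.2.2⟩, fun _ hv => ⟨hv.2.1, hv.1, hv.2.2⟩⟩

theorem ei_mem_B (hA : An V τ A) {u : Fin m → F} {c : F} (h : c + τ c = - hf τ A u u) :
    ei hA.inv hA.herm u c h ∈ Bg τ A := by
  rw [mem_Bg, ei_apply]
  refine Prod.ext ?_ ?_
  · simp [e₁]
  · simp [e₁]

theorem tl_mem_B (hA : An V τ A) : tl hA ∈ Bg τ A := by
  rw [mem_Bg, tl_apply]
  refine Prod.ext ?_ ?_
  · simp [e₁]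
  · simp [e₁]

/-- the Eichler isometry which moves `y e₂` to a given isotropic vector -/
theorem ei_eq (hA : An V τ A) {x y : F} {w : Fin m → F}
    (h : τ x * y + τ y * x + hf τ A w w = 0) (hy : y ≠ 0) :
    y⁻¹ * x + τ (y⁻¹ * x) = - hf τ A (y⁻¹ • w) (y⁻¹ • w) := by
  have hty : τ y ≠ 0 := by
    intro h0
    apply hy
    rw [← hA.inv y, h0, map_zero]
  rw [hf_smul, hf_smul_left, map_mul, map_inv₀]
  field_simp
  linear_combination h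

theorem ei_inv_move (hA : An V τ A) {x y : F} {w : Fin m → F}
    (h : τ x * y + τ y * x + hf τ A w w = 0) (hy : y ≠ 0) :
    ((ei hA.inv hA.herm (y⁻¹ • w) (y⁻¹ * x) (ei_eq hA h hy))⁻¹).1 ((x, y, w) : E F m) =
      y • e₂ F m := by
  have h1 : (ei hA.inv hA.herm (y⁻¹ • w) (y⁻¹ * x) (ei_eq hA h hy)).1 (y • e₂ F m) = (x, y, w) := by
    rw [ei_apply]
    refine Prod.ext ?_ (Prod.ext ?_ ?_)
    · simp only [e₂, Prod.smul_mk, smul_zero, smul_eq_mul, mul_zero, mul_one, hf_zero, zero_add,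
        sub_zero]
      rw [mul_inv_cancel_left₀ hy]
    · simp [e₂]
    · simp only [e₂, Prod.smul_mk, smul_zero, smul_eq_mul, mul_one, zero_add]
      rw [smul_smul, mul_inv_cancel₀ hy, one_smul]
  rw [← h1, Iso.inv_apply]

theorem dbl₀ (hA : An V τ A) {g : Iso τ A} (hg : g ∈ Kg V τ A) :
    g ∈ Kt V τ A ∨ ∃ b ∈ Bg τ A, b⁻¹ * g ∈ Kt V τ A ∧ b * tl hA ∈ Kg V τ A := by
  by_cases h1 : V.L 1 (g.1 (e₁ F m)).2.1
  · exact Or.inl (crit0 hA hg h1)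
  right
  obtain ⟨x, hx⟩ : ∃ x, x = (g.1 (e₁ F m)).1 := ⟨_, rfl⟩
  obtain ⟨y, hy⟩ : ∃ y, y = (g.1 (e₁ F m)).2.1 := ⟨_, rfl⟩
  obtain ⟨w, hw⟩ : ∃ w, w = (g.1 (e₁ F m)).2.2 := ⟨_, rfl⟩
  have hge : g.1 (e₁ F m) = (x, y, w) := by rw [hx, hy, hw]
  have hLe := hg.1 _ Lat_e₁
  rw [hge] at hLe h1
  obtain ⟨hLx, hLy, hLw⟩ := hLe
  simp only at hLx hLy hLw h1
  obtain ⟨hy0, hvy⟩ := unit_of hLy h1
  have hq0 := isot g hge
  have h2 : V.L 0 y⁻¹ := fun _ => by rw [V.v_inv hy0, hvy]; norm_num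
  have hLu : Lw V 0 (y⁻¹ • w) := Lw_mono (by norm_num) (Lw_smul h2 hLw)
  have hLc : V.L 0 (y⁻¹ * x) := DV.L_mono (by norm_num) (DV.L_mul h2 hLx)
  have he := ei_mem hA (ei_eq hA hq0 hy0) hLu hLc
  have hmv := ei_inv_move hA hq0 hy0
  have heB := ei_mem_B hA (ei_eq hA hq0 hy0)
  obtain ⟨k, hk⟩ : ∃ k, k = ei hA.inv hA.herm (y⁻¹ • w) (y⁻¹ * x) (ei_eq hA hq0 hy0) := ⟨_, rfl⟩
  rw [← hk] at he hmv heB
  have hsk : sw τ A * (k⁻¹ * g) ∈ Kt V τ A := by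
    refine crit0 hA (mul_mem sw_mem (mul_mem (inv_mem he) hg)) ?_
    rw [Iso.mul_apply, Iso.mul_apply, hge, hmv, sw_apply]
    have : (y • e₂ F m : E F m).1 = 0 := by simp [e₂]
    simp only
    rw [this]
    exact V.L_zero 1
  have hts : tl hA * sw τ A ∈ Kt V τ A := by
    have key : ∀ v, Lt V v → Lt V ((V.w⁻¹ * v.2.1, V.w * v.1, v.2.2) : E F m) := by
      intro v hv
      refine ⟨?_, ?_, hv.2.2⟩
      · exact DV.L_mono (by norm_num) (L_winv hv.2.1)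
      · exact DV.L_mono (by norm_num) (L_w hv.1)
    refine ⟨fun v hv => ?_, fun v hv => ?_⟩
    · rw [Iso.mul_apply, sw_apply, tl_apply]
      exact key v hv
    · rw [mul_inv_rev, Iso.mul_apply, tl_inv_apply, sw_inv_apply]
      exact key v hv
  refine ⟨k * (tl hA)⁻¹, mul_mem heB (inv_mem (tl_mem_B hA)), ?_, ?_⟩
  · have e : (k * (tl hA)⁻¹)⁻¹ * g = (tl hA * sw τ A) * (sw τ A * (k⁻¹ * g)) := by
      have e1 : (tl hA * sw τ A) * (sw τ A * (k⁻¹ * g)) =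
          tl hA * (sw τ A * sw τ A) * (k⁻¹ * g) := by group
      rw [e1, sw_sw, mul_one]
      group
    rw [e]
    exact mul_mem hts hsk
  · rw [inv_mul_cancel_right]
    exact he

/-- the case of a small entry -/
theorem crit11 (hA : An V τ A) {g : Iso τ A} (hg : g ∈ Kt V τ A)
    (h1 : V.L 2 (g.1 (e₁ F m)).2.1) (v : E F m) (hv : Lat V 0 v) :
    Lat V 0 (((tl hA)⁻¹ * g * tl hA).1 v) := by
  obtain ⟨x, hx⟩ : ∃ x, x = ((g⁻¹).1 (e₁ F m)).1 := ⟨_, rfl⟩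
  obtain ⟨z, hz⟩ : ∃ z, z = ((g⁻¹).1 (e₁ F m)).2.1 := ⟨_, rfl⟩
  obtain ⟨w, hw⟩ : ∃ w, w = ((g⁻¹).1 (e₁ F m)).2.2 := ⟨_, rfl⟩
  have hge : (g⁻¹).1 (e₁ F m) = (x, z, w) := by rw [hx, hz, hw]
  have hz2 : V.L 2 z := by
    rw [hz, symm_entry hA]
    exact hA.L h1
  have hx0 : V.L 0 x := by
    have h2 : Lt V (V.w⁻¹ • e₁ F m : E F m) := by
      refine ⟨?_, ?_, ?_⟩
      · have : (V.w⁻¹ • e₁ F m : E F m).1 = V.w⁻¹ := by simp [e₁]
        rw [this]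
        exact L_winv1
      · have : (V.w⁻¹ • e₁ F m : E F m).2.1 = 0 := by simp [e₁]
        rw [this]
        exact V.L_zero 0
      · have : (V.w⁻¹ • e₁ F m : E F m).2.2 = 0 := by simp [e₁]
        rw [this]
        exact Lw_zero 0
    have h3 := (hg.2 _ h2).1
    rw [map_smul, hge] at h3
    have h4 : V.L (-1) (V.w⁻¹ * x) := h3
    have h5 := L_w h4
    rw [mul_inv_cancel_left₀ V.w_ne] at h5
    exact DV.L_mono (by norm_num) h5
  have hq0 := isot g⁻¹ hge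
  have hw1 : Lw V 1 w := by
    rw [Lw_iff hA]
    have e : hf τ A w w = - (τ x * z + τ z * x) := by linear_combination hq0
    rw [e]
    refine DV.L_neg (DV.L_add ?_ ?_)
    · exact DV.L_mono (by norm_num) (DV.L_mul (hA.L hx0) hz2)
    · exact DV.L_mono (by norm_num) (DV.L_mul (hA.L hz2) hx0)
  have hs : Lt V ((tl hA).1 v) := by
    rw [tl_apply]
    exact ⟨DV.L_mono (by norm_num) (L_winv hv.1), DV.L_mono (by norm_num) (L_w hv.2.1), hv.2.2⟩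
  have hks := hg.1 _ hs
  have hb : V.L 1 (g.1 ((tl hA).1 v)).2.1 := by
    rw [← H_e₁ τ A (g.1 ((tl hA).1 v)), Iso.adj, hge, tl_apply]
    unfold H
    simp only
    refine DV.L_add (DV.L_add ?_ ?_) ?_
    · exact DV.L_mono (by norm_num) (DV.L_mul (hA.L hx0) (L_w hv.2.1))
    · exact DV.L_mono (by norm_num) (DV.L_mul (hA.L hz2) (L_winv hv.1))
    · exact DV.L_mono (by norm_num) (hf_L hA hw1 hv.2.2)
  rw [Iso.mul_apply, Iso.mul_apply, tl_inv_apply]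
  refine ⟨?_, ?_, hks.2.2⟩
  · exact DV.L_mono (by norm_num) (L_w hks.1)
  · exact DV.L_mono (by norm_num) (L_winv hb)

theorem crit1 (hA : An V τ A) {g : Iso τ A} (hg : g ∈ Kt V τ A)
    (h1 : V.L 2 (g.1 (e₁ F m)).2.1) : (tl hA)⁻¹ * g * tl hA ∈ Kg V τ A := by
  refine ⟨crit11 hA hg h1, ?_⟩
  have e : ((tl hA)⁻¹ * g * tl hA)⁻¹ = (tl hA)⁻¹ * g⁻¹ * tl hA := by group
  rw [e]
  refine crit11 hA (inv_mem hg) ?_
  rw [symm_entry hA]
  exact hA.L h1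

theorem nrm₁ (hA : An V τ A) {g : Iso τ A} (hg : g ∈ Kt V τ A) (h1 : g ∈ Bg τ A) :
    (tl hA)⁻¹ * g * tl hA ∈ Kg V τ A := by
  refine crit1 hA hg ?_
  rw [mem_Bg.1 h1]
  exact V.L_zero 2

theorem dbl₁ (hA : An V τ A) {g : Iso τ A} (hg : g ∈ Kt V τ A) :
    (tl hA)⁻¹ * g * tl hA ∈ Kg V τ A ∨
      ∃ b ∈ Bg τ A, b⁻¹ * (g * tl hA) ∈ Kg V τ A ∧ b ∈ Kt V τ A := by
  by_cases h1 : V.L 2 (g.1 (e₁ F m)).2.1
  · exact Or.inl (crit1 hA hg h1)
  right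
  obtain ⟨x, hx⟩ : ∃ x, x = (g.1 (e₁ F m)).1 := ⟨_, rfl⟩
  obtain ⟨z, hz⟩ : ∃ z, z = (g.1 (e₁ F m)).2.1 := ⟨_, rfl⟩
  obtain ⟨w, hw⟩ : ∃ w, w = (g.1 (e₁ F m)).2.2 := ⟨_, rfl⟩
  have hge : g.1 (e₁ F m) = (x, z, w) := by rw [hx, hz, hw]
  have hLt : Lt V (V.w⁻¹ • e₁ F m : E F m) := by
    refine ⟨?_, ?_, ?_⟩
    · have : (V.w⁻¹ • e₁ F m : E F m).1 = V.w⁻¹ := by simp [e₁]
      rw [this]
      exact L_winv1
    · have : (V.w⁻¹ • e₁ F m : E F m).2.1 = 0 := by simp [e₁]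
      rw [this]
      exact V.L_zero 0
    · have : (V.w⁻¹ • e₁ F m : E F m).2.2 = 0 := by simp [e₁]
      rw [this]
      exact Lw_zero 0
  have hLe := hg.1 _ hLt
  rw [map_smul, hge] at hLe
  have hx0 : V.L 0 x := by
    have h4 : V.L (-1) (V.w⁻¹ * x) := hLe.1
    have h5 := L_w h4
    rw [mul_inv_cancel_left₀ V.w_ne] at h5
    exact DV.L_mono (by norm_num) h5
  have hz1 : V.L 1 z := by
    have h4 : V.L 0 (V.w⁻¹ * z) := hLe.2.1
    have h5 := L_w h4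
    rw [mul_inv_cancel_left₀ V.w_ne] at h5
    exact DV.L_mono (by norm_num) h5
  have hw1 : Lw V 1 w := by
    intro i
    have h4 : V.L 0 (V.w⁻¹ * w i) := hLe.2.2 i
    have h5 := L_w h4
    rw [mul_inv_cancel_left₀ V.w_ne] at h5
    exact DV.L_mono (by norm_num) h5
  rw [hge] at h1
  simp only at h1
  have hz0 : z ≠ 0 := by
    rintro rfl
    exact h1 (V.L_zero 2)
  have hvz : V.v z = 1 := by
    have h3 := hz1 hz0
    by_contra h4
    exact h1 fun _ => by omega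
  have h2 : V.L (-1) z⁻¹ := fun _ => by rw [V.v_inv hz0, hvz]
  have hq0 := isot g hge
  have hLu : Lw V 0 (z⁻¹ • w) := Lw_mono (by norm_num) (Lw_smul h2 hw1)
  have hLc : V.L (-1) (z⁻¹ * x) := DV.L_mono (by norm_num) (DV.L_mul h2 hx0)
  have he := ei_mem_t hA (ei_eq hA hq0 hz0) hLu hLc
  have hmv := ei_inv_move hA hq0 hz0
  have heB := ei_mem_B hA (ei_eq hA hq0 hz0)
  obtain ⟨k, hk⟩ : ∃ k, k = ei hA.inv hA.herm (z⁻¹ • w) (z⁻¹ * x) (ei_eq hA hq0 hz0) := ⟨_, rfl⟩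
  rw [← hk] at he hmv heB
  have hgk : k⁻¹ * g ∈ Kt V τ A := mul_mem (inv_mem he) hg
  have hmv2 : (k⁻¹ * g).1 (e₁ F m) = z • e₂ F m := by
    rw [Iso.mul_apply, hge, hmv]
  refine ⟨k, heB, ?_, he⟩
  rw [← mul_assoc]
  obtain ⟨j, hj⟩ : ∃ j, j = k⁻¹ * g := ⟨_, rfl⟩
  rw [← hj] at hgk hmv2 ⊢
  refine ⟨fun v hv => ?_, fun v hv => ?_⟩
  · have hs : Lt V ((tl hA).1 v) := by
      rw [tl_apply]
      exact ⟨DV.L_mono (by norm_num) (L_winv hv.1), DV.L_mono (by norm_num) (L_w hv.2.1), hv.2.2⟩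
    have hks := hgk.1 _ hs
    rw [Iso.mul_apply]
    refine ⟨?_, hks.2.1, hks.2.2⟩
    have h3 := j.2 (e₁ F m) ((tl hA).1 v)
    rw [hmv2, H_smul_left, H_e₂, H_e₁, tl_apply] at h3
    simp only at h3
    rw [← tl_apply hA] at h3
    have h4 : V.L 1 (τ z * (j.1 ((tl hA).1 v)).1) := by
      rw [h3]
      exact DV.L_mono (by norm_num) (L_w hv.2.1)
    have htz : τ z ≠ 0 := by
      intro h0
      apply hz0
      rw [← hA.inv z, h0, map_zero]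
    have h5 : V.L (-1) (τ z)⁻¹ := fun _ => by rw [V.v_inv htz, hA.vt, hvz]
    have h6 := DV.L_mul h5 h4
    rw [inv_mul_cancel_left₀ htz] at h6
    exact DV.L_mono (by norm_num) h6
  · have hks := hgk.2 _ (Lt_of_Lat hv)
    rw [mul_inv_rev, Iso.mul_apply, tl_inv_apply]
    refine ⟨?_, ?_, hks.2.2⟩
    · exact DV.L_mono (by norm_num) (L_w hks.1)
    · have h3 : (((j⁻¹).1 v).2.1) = τ z * v.1 := by
        rw [← H_e₁ τ A ((j⁻¹).1 v), Iso.adj', hmv2, H_smul_left, H_e₂]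
      have h4 : V.L 1 ((j⁻¹).1 v).2.1 := by
        rw [h3]
        exact DV.L_mono (by norm_num) (DV.L_mul (hA.L hz1) hv.1)
      exact DV.L_mono (by norm_num) (L_winv h4)

end Pool.Agent.U722.UG
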