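import Pool.Agent.U722.UG.Val

/-!
# Unitary groups over a domain with a degree function
-/

set_option autoImplicit false

namespace Pool.Agent.U722.UG

open Matrix
open Pool.Agent.U709.BT
open Pool.Agent.U709 (IsDegree Bd Bd_add Bd_neg v0 exists_DV)
open Pool.Agent.Y110.FJ (ClosedE)
open Pool.Agent.U722.OG (Ix lin Cg mem_Cg Cg_comm Cg_mono quot_ker exists_num entries)

variable {C : ∀ (G : Type) [Group G], Prop}

variable {R : Type} [CommRing R] {m : ℕ}

/-- the involution, the degree function and the form are compatible -/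
structure AnD (δ : R → ℕ) (τ : R →+* R) (A : Matrix (Fin m) (Fin m) R) : Prop where
  inv : ∀ r, τ (τ r) = r
  deg : ∀ r, δ (τ r) = δ r
  fix : ∀ r, r ≠ 0 → ∃ s, s ≠ 0 ∧ τ s = s ∧ δ s = δ r
  herm : ∀ i j, τ (A i j) = A j i
  int : ∀ i j, A i j ≠ 0 → δ (A i j) = 0
  an : ∀ w : Fin m → R, w ≠ 0 → ∃ i, w i ≠ 0 ∧ hf τ A w w ≠ 0 ∧
    δ (hf τ A w w) = 2 * δ (w i) ∧ ∀ j, w j ≠ 0 → δ (w j) ≤ δ (w i)

section frac

variable [IsDomain R]

theorem exists_one (x : FractionRing R) : ∃ c r : R, c ≠ 0 ∧
    algebraMap R (FractionRing R) c * x = algebraMap R (FractionRing R) r := by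
  obtain ⟨c, w', hc, h⟩ := exists_num (ι := Unit) (fun _ => x)
  exact ⟨c, w' (), hc, h ()⟩

theorem exists_sigma (τ : R →+* R) (hτ : ∀ r, τ (τ r) = r) :
    ∃ σ : FractionRing R →+* FractionRing R,
      ∀ r, σ (algebraMap R (FractionRing R) r) = algebraMap R (FractionRing R) (τ r) := by
  have hinj : Function.Injective τ := fun a b h => by rw [← hτ a, ← hτ b, h]
  exact ⟨IsFractionRing.map (K := FractionRing R) (L := FractionRing R) hinj,
    fun r => IsLocalization.map_eq _ r⟩

variable {τ : R →+* R} {σ : FractionRing R →+* FractionRing R}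

theorem sigma_sigma (hτ : ∀ r, τ (τ r) = r)
    (h : ∀ r, σ (algebraMap R (FractionRing R) r) = algebraMap R (FractionRing R) (τ r))
    (x : FractionRing R) : σ (σ x) = x := by
  obtain ⟨c, r, hc, hcr⟩ := exists_one x
  have hinj : Function.Injective (algebraMap R (FractionRing R)) :=
    IsFractionRing.injective R (FractionRing R)
  have hc' : algebraMap R (FractionRing R) c ≠ 0 := by
    rwa [Ne, map_eq_zero_iff _ hinj]
  have h1 := congrArg (fun y => σ (σ y)) hcr
  simp only [map_mul, h, hτ] at h1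
  rw [← hcr] at h1
  exact mul_left_cancel₀ hc' h1

/-- the isometries over the field of fractions -/
theorem map_mem
    (h : ∀ r, σ (algebraMap R (FractionRing R) r) = algebraMap R (FractionRing R) (τ r))
    {A : Matrix (Fin m) (Fin m) R} {g : GL (Ix m) R} (hg : g ∈ Uni τ A) :
    GeneralLinearGroup.map (algebraMap R (FractionRing R)) g ∈
      Uni σ (A.map (algebraMap R (FractionRing R))) := by
  have hinj : Function.Injective (algebraMap R (FractionRing R)) :=
    IsFractionRing.injective R (FractionRing R)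
  have h2 : ∀ v' : Ix m → R, (GeneralLinearGroup.map (algebraMap R (FractionRing R)) g).1 *ᵥ
      (fun i => algebraMap R (FractionRing R) (v' i)) =
        fun i => algebraMap R (FractionRing R) ((g.1 *ᵥ v') i) := by
    intro v'
    funext i
    rw [Matrix.mulVec, Matrix.mulVec, dotProduct, dotProduct, map_sum]
    refine Finset.sum_congr rfl fun j _ => ?_
    rw [map_mul]
    rfl
  intro v w
  obtain ⟨c, v', hc, hv⟩ := exists_num v
  obtain ⟨d, w', hd, hw⟩ := exists_num w
  have hc' : σ (algebraMap R (FractionRing R) c) ≠ 0 := by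
    rw [Ne, map_eq_zero_iff _ σ.injective, map_eq_zero_iff _ hinj]
    exact hc
  have hd' : algebraMap R (FractionRing R) d ≠ 0 := by
    rwa [Ne, map_eq_zero_iff _ hinj]
  have h1 : algebraMap R (FractionRing R) c • v = fun i => algebraMap R (FractionRing R) (v' i) := by
    funext i
    exact hv i
  have h1' : algebraMap R (FractionRing R) d • w =
      fun i => algebraMap R (FractionRing R) (w' i) := by
    funext i
    exact hw i
  have h3 : HH σ (A.map (algebraMap R (FractionRing R)))
      ((GeneralLinearGroup.map (algebraMap R (FractionRing R)) g).1 *ᵥ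
        (algebraMap R (FractionRing R) c • v))
      ((GeneralLinearGroup.map (algebraMap R (FractionRing R)) g).1 *ᵥ
        (algebraMap R (FractionRing R) d • w)) =
      HH σ (A.map (algebraMap R (FractionRing R))) (algebraMap R (FractionRing R) c • v)
        (algebraMap R (FractionRing R) d • w) := by
    rw [h1, h1', h2, h2, HH_map _ (fun r => (h r).symm), HH_map _ (fun r => (h r).symm), hg]
  rw [Matrix.mulVec_smul, Matrix.mulVec_smul, HH_smul, HH_smul] at h3
  exact mul_left_cancel₀ (mul_ne_zero hc' hd') h3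

/-- a uniformizer which is fixed by the involution -/
theorem exists_DVt {δ : R → ℕ} (hδ : IsDegree δ) (hnt : ∃ r : R, r ≠ 0 ∧ δ r ≠ 0)
    (hfix : ∀ r, r ≠ 0 → ∃ s, s ≠ 0 ∧ τ s = s ∧ δ s = δ r)
    (h : ∀ r, σ (algebraMap R (FractionRing R) r) = algebraMap R (FractionRing R) (τ r)) :
    ∃ (e : ℕ) (V : DV (FractionRing R)), 0 < e ∧ σ V.w = V.w ∧ ∀ r : R, r ≠ 0 →
      (e : ℤ) * V.v (algebraMap R (FractionRing R) r) = - δ r := by
  obtain ⟨e, V, he, hV⟩ := exists_DV hδ hnt
  have he' : (0 : ℤ) < e := by exact_mod_cast he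
  have hinj : Function.Injective (algebraMap R (FractionRing R)) :=
    IsFractionRing.injective R (FractionRing R)
  have hne : ∀ {r : R}, r ≠ 0 → algebraMap R (FractionRing R) r ≠ 0 := by
    intro r hr
    rwa [Ne, map_eq_zero_iff _ hinj]
  obtain ⟨c, r, hc, hcr⟩ := exists_one V.w
  have hr : r ≠ 0 := by
    rintro rfl
    rw [map_zero] at hcr
    exact mul_ne_zero (hne hc) V.w_ne hcr
  obtain ⟨c', hc', hτc, hδc⟩ := hfix c hc
  obtain ⟨r', hr', hτr, hδr⟩ := hfix r hr
  obtain ⟨y, hy⟩ : ∃ y, y = algebraMap R (FractionRing R) r' *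
    (algebraMap R (FractionRing R) c')⁻¹ := ⟨_, rfl⟩
  have hy0 : y ≠ 0 := by
    rw [hy]
    exact mul_ne_zero (hne hr') (inv_ne_zero (hne hc'))
  have hvy : V.v y = 1 := by
    have h1 : V.v (algebraMap R (FractionRing R) c) + 1 =
        V.v (algebraMap R (FractionRing R) r) := by
      have := congrArg V.v hcr
      rwa [V.map_mul _ _ (hne hc) V.w_ne, V.v_w] at this
    have h2 : ∀ a b : R, a ≠ 0 → b ≠ 0 → δ a = δ b →
        V.v (algebraMap R (FractionRing R) a) = V.v (algebraMap R (FractionRing R) b) := by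
      intro a b ha hb hab
      have h3 := hV a ha
      have h4 := hV b hb
      rw [hab, ← h4] at h3
      exact mul_left_cancel₀ he'.ne' h3
    rw [hy, V.map_mul _ _ (hne hr') (inv_ne_zero (hne hc')), V.v_inv (hne hc'),
      h2 _ _ hr' hr hδr, h2 _ _ hc' hc hδc]
    omega
  have hσy : σ y = y := by
    rw [hy, map_mul, map_inv₀, h, h, hτr, hτc]
  exact ⟨e, ⟨V.v, V.map_mul, V.map_add, y, hy0, hvy⟩, he, hσy, hV⟩

theorem An_of {δ : R → ℕ} {e : ℕ} (he : 0 < e) {V : DV (FractionRing R)}
    (hV : ∀ r : R, r ≠ 0 → (e : ℤ) * V.v (algebraMap R (FractionRing R) r) = - δ r)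
    (hσw : σ V.w = V.w)
    (hσ : ∀ r, σ (algebraMap R (FractionRing R) r) = algebraMap R (FractionRing R) (τ r))
    {A : Matrix (Fin m) (Fin m) R} (hA : AnD δ τ A) :
    An V σ (A.map (algebraMap R (FractionRing R))) := by
  have he' : (0 : ℤ) < e := by exact_mod_cast he
  have hinj : Function.Injective (algebraMap R (FractionRing R)) :=
    IsFractionRing.injective R (FractionRing R)
  have hne : ∀ {r : R}, r ≠ 0 → algebraMap R (FractionRing R) r ≠ 0 := by
    intro r hr
    rwa [Ne, map_eq_zero_iff _ hinj]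
  have hτne : ∀ {r : R}, r ≠ 0 → τ r ≠ 0 := by
    intro r hr h0
    apply hr
    rw [← hA.inv r, h0, map_zero]
  have hvt : ∀ x, V.v (σ x) = V.v x := by
    intro x
    by_cases hx : x = 0
    · rw [hx, map_zero]
    obtain ⟨c, r, hc, hcr⟩ := exists_one x
    have hr : r ≠ 0 := by
      rintro rfl
      rw [map_zero] at hcr
      exact mul_ne_zero (hne hc) hx hcr
    have hσx : σ x ≠ 0 := by rwa [Ne, map_eq_zero_iff _ σ.injective]
    have h1 := congrArg V.v hcr
    rw [V.map_mul _ _ (hne hc) hx] at h1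
    have h2 := congrArg (fun y => V.v (σ y)) hcr
    simp only [map_mul, hσ] at h2
    rw [V.map_mul _ _ (hne (hτne hc)) hσx] at h2
    have h3 := hV _ hc
    have h4 := hV _ (hτne hc)
    have h5 := hV _ hr
    have h6 := hV _ (hτne hr)
    rw [hA.deg, ← h3] at h4
    rw [hA.deg, ← h5] at h6
    have h7 := mul_left_cancel₀ he'.ne' h4
    have h8 := mul_left_cancel₀ he'.ne' h6
    omega
  refine ⟨sigma_sigma hA.inv hσ, hvt, hσw, ?_, ?_, ?_⟩
  · intro i j
    rw [Matrix.map_apply, Matrix.map_apply, hσ, hA.herm]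
  · intro i j h0
    rw [Matrix.map_apply] at h0 ⊢
    have h1 : A i j ≠ 0 := by
      intro h2
      rw [h2, map_zero] at h0
      exact h0 rfl
    have h2 := hV _ h1
    rw [hA.int i j h1, Nat.cast_zero, neg_zero] at h2
    exact (((mul_eq_zero.1 h2).resolve_left he'.ne')).ge
  intro w hw
  obtain ⟨c, w', hc, hcw⟩ := exists_num w
  have hc' := hne hc
  have hiff : ∀ i, w i ≠ 0 ↔ w' i ≠ 0 := by
    intro i
    rw [not_iff_not]
    constructor
    · intro h
      have := hcw i
      rw [h, mul_zero] at this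
      exact hinj (by rw [← this, map_zero])
    · intro h
      have := hcw i
      rw [h, map_zero] at this
      exact (mul_eq_zero.1 this).resolve_left hc'
  have hw' : w' ≠ 0 := by
    rintro rfl
    apply hw
    funext i
    by_contra h
    exact (hiff i).1 h rfl
  obtain ⟨i, hi, hq, hd, hmax⟩ := hA.an w' hw'
  have hσc : σ (algebraMap R (FractionRing R) c) ≠ 0 := by
    rwa [Ne, map_eq_zero_iff _ σ.injective]
  have h1 : (σ (algebraMap R (FractionRing R) c) * algebraMap R (FractionRing R) c) *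
      hf σ (A.map (algebraMap R (FractionRing R))) w w =
        algebraMap R (FractionRing R) (hf τ A w' w') := by
    rw [mul_assoc, ← hf_smul, ← hf_smul_left, ← hf_map _ (fun r => (hσ r).symm)]
    have h2 : algebraMap R (FractionRing R) c • w =
        fun i => algebraMap R (FractionRing R) (w' i) := by
      funext i
      exact hcw i
    rw [h2]
  have hq0 : hf σ (A.map (algebraMap R (FractionRing R))) w w ≠ 0 := by
    intro h0
    rw [h0, mul_zero] at h1
    exact hne hq h1.symm
  -- valuations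
  have h2 := congrArg V.v h1
  rw [V.map_mul _ _ (mul_ne_zero hσc hc') hq0, V.map_mul _ _ hσc hc', hvt] at h2
  have h3 : ∀ j, w j ≠ 0 → V.v (algebraMap R (FractionRing R) c) + V.v (w j) =
      V.v (algebraMap R (FractionRing R) (w' j)) := by
    intro j hj
    have := congrArg V.v (hcw j)
    rwa [V.map_mul _ _ hc' hj] at this
  have h4 := hV _ hq
  have h5 := hV _ hi
  have hi' := (hiff i).2 hi
  refine ⟨i, hi', hq0, ?_, ?_⟩
  · have h6 := h3 i hi'
    have h7 : (e : ℤ) * V.v (algebraMap R (FractionRing R) (hf τ A w' w')) =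
        (e : ℤ) * (2 * V.v (algebraMap R (FractionRing R) (w' i))) := by
      rw [h4, hd]
      push_cast
      linear_combination -2 * h5
    have h8 := mul_left_cancel₀ he'.ne' h7
    omega
  · intro j hj
    have h6 := h3 i hi'
    have h7 := h3 j hj
    have h8 := hV _ ((hiff j).1 hj)
    have h9 := hmax j ((hiff j).1 hj)
    have h10 : (e : ℤ) * V.v (algebraMap R (FractionRing R) (w' i)) ≤
        (e : ℤ) * V.v (algebraMap R (FractionRing R) (w' j)) := by
      rw [h5, h8]
      omega
    have h11 := le_of_mul_le_mul_left h10 he'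
    omega

end frac

/-- **Unitary groups over a domain with a degree function.** -/
theorem main_dom (hC : ClosedE C) (hS : ∀ (G : Type) [Group G], Group.IsSolvable G → C G)
    [IsDomain R] {S : Type} [CommRing S] {δ : R → ℕ} (hδ : IsDegree δ) {τ : R →+* R}
    {A : Matrix (Fin m) (Fin m) R} (hA : AnD δ τ A) (φ : R →+* S)
    (hφ : ∀ n : ℕ, ∃ k : ℕ, ∀ r ∈ (RingHom.ker φ) ^ k, r ≠ 0 → n < δ r)
    (Γ : Subgroup (GL (Ix m) R)) (hΓA : Γ ≤ Uni τ A)
    (hΓ : C (Γ.map (GeneralLinearGroup.map φ))) : C Γ := by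
  by_cases hnt : ∃ r : R, r ≠ 0 ∧ δ r ≠ 0
  · obtain ⟨σ, hσ⟩ := exists_sigma τ hA.inv
    obtain ⟨e, V, he, hσw, hV⟩ := exists_DVt hδ hnt hA.fix hσ
    have he' : (0 : ℤ) < e := by exact_mod_cast he
    obtain ⟨J, hJ⟩ : ∃ J, J = RingHom.ker φ := ⟨_, rfl⟩
    let N : ℕ → Subgroup Γ := fun k => (Cg (J ^ (k + 1))).subgroupOf Γ
    have hN : ∀ k, (N k).Normal := by
      intro k
      have : (Cg (ι := Ix m) (J ^ (k + 1))).Normal := MonoidHom.normal_ker _
      exact this.subgroupOf Γ
    have hinj : Function.Injective (algebraMap R (FractionRing R)) :=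
      IsFractionRing.injective R (FractionRing R)
    let ρ : Γ →* Iso σ (A.map (algebraMap R (FractionRing R))) :=
      ((lin.comp (GeneralLinearGroup.map (n := Ix m) (algebraMap R (FractionRing R)))).comp
        Γ.subtype).codRestrict _ (fun x => lin_mem (map_mem hσ (hΓA x.2)))
    refine main_val hC hS (An_of he hV hσw hσ hA) ρ N ?_ ?_ ?_ ?_
    · intro k x hx
      exact Cg_mono (Ideal.pow_le_pow_right (by omega)) hx
    · intro k x hx y hy
      refine Cg_comm ?_ hx hy
      rw [← pow_add]
      exact Ideal.pow_le_pow_right (by omega)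
    · refine quot_ker hC φ Γ hΓ (N 0) (fun x => ?_)
      rw [← hJ]
      change x.1 ∈ Cg (J ^ (0 + 1)) ↔ _
      rw [zero_add, pow_one]
    · intro n
      obtain ⟨k, hk⟩ := hφ (n * e)
      refine ⟨k, fun x hx hb => ?_⟩
      have hx' : x.1 ∈ Cg (J ^ (k + 1)) := hx
      have hb' := entries (V := V)
        (g := GeneralLinearGroup.map (n := Ix m) (algebraMap R (FractionRing R)) x.1) hb
      have hB : ∀ i j, Bd δ (n * e) (x.1.1 i j) := by
        intro i j h0
        have h1 : algebraMap R (FractionRing R) (x.1.1 i j) ≠ 0 := by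
          rwa [Ne, map_eq_zero_iff _ hinj]
        have h2 : -(n : ℤ) ≤ V.v (algebraMap R (FractionRing R) (x.1.1 i j)) := hb' i j h1
        have h3 := hV _ h0
        have h4 : (e : ℤ) * (-(n : ℤ)) ≤ (e : ℤ) * V.v (algebraMap R (FractionRing R) (x.1.1 i j)) :=
          mul_le_mul_of_nonneg_left h2 he'.le
        rw [h3] at h4
        have h5 : (δ (x.1.1 i j) : ℤ) ≤ ((n * e : ℕ) : ℤ) := by
          push_cast
          linarith
        exact_mod_cast h5
      have hone : ∀ i j, Bd δ (n * e) ((1 : Matrix (Ix m) (Ix m) R) i j) := by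
        intro i j h0
        rw [Matrix.one_apply] at h0 ⊢
        split_ifs at h0 ⊢ with h1
        · rw [hδ.one]
          exact Nat.zero_le _
        · exact absurd rfl h0
      apply Subtype.ext
      apply GeneralLinearGroup.ext
      intro i j
      change x.1.1 i j = (1 : Matrix (Ix m) (Ix m) R) i j
      rw [← sub_eq_zero]
      by_contra hne
      have h1 := mem_Cg.1 hx' i j
      have h2 := hk _ (by rw [← hJ]; exact Ideal.pow_le_pow_right (by omega) h1) hne
      have h3 : Bd δ (n * e) (x.1.1 i j - (1 : Matrix (Ix m) (Ix m) R) i j) := by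
        rw [sub_eq_add_neg]
        exact Bd_add hδ (hB i j) (Bd_neg hδ (hone i j))
      have h4 := h3 hne
      omega
  · push Not at hnt
    have hJ : RingHom.ker φ = ⊥ := by
      obtain ⟨k, hk⟩ := hφ 0
      have h1 : (RingHom.ker φ) ^ k = ⊥ := by
        rw [eq_bot_iff]
        intro r hr
        by_contra h0
        have h0' : r ≠ 0 := h0
        have := hk r hr h0'
        have := hnt r h0'
        omega
      by_contra hne
      obtain ⟨r, hr, hr0⟩ := Submodule.exists_mem_ne_zero_of_ne_bot hne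
      have h2 : r ^ k ∈ (RingHom.ker φ) ^ k := Ideal.pow_mem_pow hr k
      rw [h1, Ideal.mem_bot] at h2
      exact pow_ne_zero k hr0 h2
    refine hC.base.of_injective _ _ ((GeneralLinearGroup.map (n := Ix m) φ).subgroupMap Γ) ?_ hΓ
    rw [← RingHom.injective_iff_ker_eq_bot] at hJ
    rw [injective_iff_map_eq_one]
    intro x hx
    have h1 : GeneralLinearGroup.map φ x.1 = 1 := congrArg Subtype.val hx
    apply Subtype.ext
    apply GeneralLinearGroup.ext
    intro i j
    apply hJ
    have h2 : φ (x.1.1 i j) = (1 : Matrix (Ix m) (Ix m) S) i j := by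
      have : φ (x.1.1 i j) = (GeneralLinearGroup.map φ x.1).1 i j := rfl
      rw [this, h1]
      rfl
    change φ (x.1.1 i j) = φ ((1 : Matrix (Ix m) (Ix m) R) i j)
    rw [h2, Matrix.one_apply, Matrix.one_apply]
    split_ifs <;> simp

end Pool.Agent.U722.UG
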