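import Pool.Agent.U722.OG.Tree

/-!
# The tree of a group with an Iwasawa decomposition and two types of vertices
-/

set_option autoImplicit false

namespace Pool.Agent.U722.UG

open SimpleGraph

/-- a group with an Iwasawa decomposition: `K₀`, `K₁` are the stabilizers of two adjacent vertices of an
axis, `B` the stabilizer of its end, `s` a translation towards the end -/
structure Iwa (G : Type) [Group G] where
  K₀ : Subgroup G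
  K₁ : Subgroup G
  B : Subgroup G
  s : G
  l : G → ℤ
  s_mem : s ∈ B
  l_mul : ∀ a ∈ B, ∀ b ∈ B, l (a * b) = l a + l b
  l_s : l s = 1
  l_K₀ : ∀ k ∈ K₀, k ∈ B → l k = 0
  iwa₀ : ∀ g : G, ∃ b ∈ B, b⁻¹ * g ∈ K₀
  nrm₀ : ∀ k ∈ K₀, k ∈ B → k ∈ K₁
  nrm₁ : ∀ k ∈ K₁, k ∈ B → s⁻¹ * k * s ∈ K₀
  dbl₀ : ∀ k ∈ K₀, k ∈ K₁ ∨ ∃ b ∈ B, b⁻¹ * k ∈ K₁ ∧ b * s ∈ K₀
  dbl₁ : ∀ k ∈ K₁, s⁻¹ * k * s ∈ K₀ ∨ ∃ b ∈ B, b⁻¹ * (k * s) ∈ K₀ ∧ b ∈ K₁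
  anc : ∀ b ∈ B, ∃ m n : ℕ, (s ^ m)⁻¹ * b * s ^ n ∈ K₀

namespace Iwa

variable {G : Type} [Group G] (I : Iwa G)

theorem iwa₁ (g : G) : ∃ b ∈ I.B, b⁻¹ * g ∈ I.K₁ := by
  obtain ⟨b, hb, hk⟩ := I.iwa₀ g
  rcases I.dbl₀ _ hk with h | ⟨c, hc, h1, -⟩
  · exact ⟨b, hb, h⟩
  · refine ⟨b * c, mul_mem hb hc, ?_⟩
    have e : (b * c)⁻¹ * g = c⁻¹ * (b⁻¹ * g) := by group
    rwa [e]

theorem l_inv_s : I.l I.s⁻¹ = -1 := by
  have h1 := I.l_mul _ (inv_mem I.s_mem) _ I.s_mem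
  rw [inv_mul_cancel, I.l_s] at h1
  have h2 := I.l_K₀ 1 (one_mem _) (one_mem _)
  omega

theorem l_K₁ (k : G) (hk : k ∈ I.K₁) (hkB : k ∈ I.B) : I.l k = 0 := by
  have h1 := I.nrm₁ k hk hkB
  have h2 := I.l_K₀ _ h1 (mul_mem (mul_mem (inv_mem I.s_mem) hkB) I.s_mem)
  rw [I.l_mul _ (mul_mem (inv_mem I.s_mem) hkB) _ I.s_mem, I.l_mul _ (inv_mem I.s_mem) _ hkB,
    I.l_s, I.l_inv_s] at h2
  omega

/-- the vertices -/
abbrev Vt : Type := (G ⧸ I.K₀) ⊕ (G ⧸ I.K₁)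

/-- the action -/
instance : MulAction G I.Vt where
  smul g x := x.map (g • ·) (g • ·)
  one_smul x := by
    rcases x with x | x
    · exact congrArg Sum.inl (one_smul G x)
    · exact congrArg Sum.inr (one_smul G x)
  mul_smul g h x := by
    rcases x with x | x
    · exact congrArg Sum.inl (mul_smul g h x)
    · exact congrArg Sum.inr (mul_smul g h x)

/-- the vertex of type `0` -/
def v₀ (g : G) : I.Vt := Sum.inl (QuotientGroup.mk g)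

/-- the vertex of type `1` -/
def v₁ (g : G) : I.Vt := Sum.inr (QuotientGroup.mk g)

theorem smul_v₀ (g h : G) : g • I.v₀ h = I.v₀ (g * h) := rfl

theorem smul_v₁ (g h : G) : g • I.v₁ h = I.v₁ (g * h) := rfl

theorem v₀_eq {g h : G} : I.v₀ g = I.v₀ h ↔ g⁻¹ * h ∈ I.K₀ := by
  unfold v₀
  rw [Sum.inl.injEq, QuotientGroup.eq]

theorem v₁_eq {g h : G} : I.v₁ g = I.v₁ h ↔ g⁻¹ * h ∈ I.K₁ := by
  unfold v₁
  rw [Sum.inr.injEq, QuotientGroup.eq]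

/-- edges -/
def Ed (x y : I.Vt) : Prop :=
  ∃ g : G, x = I.v₀ g ∧ y = I.v₁ g ∨ x = I.v₁ g ∧ y = I.v₀ (g * I.s)

/-- the tree -/
def tr : SimpleGraph I.Vt where
  Adj x y := I.Ed x y ∨ I.Ed y x
  symm := ⟨fun _ _ h => h.symm⟩
  loopless := ⟨by
    have key : ∀ x, ¬ I.Ed x x := by
      rintro x ⟨g, ⟨h1, h2⟩ | ⟨h1, h2⟩⟩
      · rw [h1] at h2
        exact Sum.inl_ne_inr h2
      · rw [h1] at h2
        exact Sum.inr_ne_inl h2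
    intro x h
    exact h.elim (key x) (key x)⟩

theorem Ed_act (g : G) {x y : I.Vt} (h : I.Ed x y) : I.Ed (g • x) (g • y) := by
  obtain ⟨a, ⟨h1, h2⟩ | ⟨h1, h2⟩⟩ := h
  · exact ⟨g * a, Or.inl ⟨by rw [h1]; rfl, by rw [h2]; rfl⟩⟩
  · refine ⟨g * a, Or.inr ⟨by rw [h1]; rfl, ?_⟩⟩
    rw [h2, smul_v₀, mul_assoc]

theorem tr_act (g : G) (u w : I.Vt) (h : I.tr.Adj u w) : I.tr.Adj (g • u) (g • w) :=
  h.imp (I.Ed_act g) (I.Ed_act g)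

theorem exists_rep (x : I.Vt) : ∃ b ∈ I.B, x = I.v₀ b ∨ x = I.v₁ b := by
  rcases x with x | x
  · obtain ⟨g, rfl⟩ := QuotientGroup.mk_surjective x
    obtain ⟨b, hb, h⟩ := I.iwa₀ g
    exact ⟨b, hb, Or.inl (I.v₀_eq.2 h).symm⟩
  · obtain ⟨g, rfl⟩ := QuotientGroup.mk_surjective x
    obtain ⟨b, hb, h⟩ := I.iwa₁ g
    exact ⟨b, hb, Or.inr (I.v₁_eq.2 h).symm⟩

/-- a representative in `B` -/
noncomputable def rep (x : I.Vt) : G := (I.exists_rep x).choose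

theorem rep_mem (x : I.Vt) : I.rep x ∈ I.B := (I.exists_rep x).choose_spec.1

theorem rep_eq (x : I.Vt) : x = I.v₀ (I.rep x) ∨ x = I.v₁ (I.rep x) :=
  (I.exists_rep x).choose_spec.2

/-- the parent -/
noncomputable def par (x : I.Vt) : I.Vt :=
  Sum.elim (fun _ => I.v₁ (I.rep x)) (fun _ => I.v₀ (I.rep x * I.s)) x

/-- the level -/
noncomputable def lv (x : I.Vt) : ℤ :=
  Sum.elim (fun _ => 2 * I.l (I.rep x)) (fun _ => 2 * I.l (I.rep x) + 1) x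

theorem rel₀ (b : G) : I.v₀ b = I.v₀ (I.rep (I.v₀ b)) := by
  rcases I.rep_eq (I.v₀ b) with h | h
  · exact h
  · exact absurd h Sum.inl_ne_inr

theorem rel₁ (b : G) : I.v₁ b = I.v₁ (I.rep (I.v₁ b)) := by
  rcases I.rep_eq (I.v₁ b) with h | h
  · exact absurd h Sum.inr_ne_inl
  · exact h

theorem par_v₀ {b : G} (hb : b ∈ I.B) : I.par (I.v₀ b) = I.v₁ b := by
  have h := I.v₀_eq.1 (I.rel₀ b)
  change I.v₁ (I.rep (I.v₀ b)) = I.v₁ b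
  rw [eq_comm, v₁_eq]
  exact I.nrm₀ _ h (mul_mem (inv_mem hb) (I.rep_mem _))

theorem par_v₁ {b : G} (hb : b ∈ I.B) : I.par (I.v₁ b) = I.v₀ (b * I.s) := by
  have h := I.v₁_eq.1 (I.rel₁ b)
  change I.v₀ (I.rep (I.v₁ b) * I.s) = I.v₀ (b * I.s)
  rw [eq_comm, v₀_eq]
  have := I.nrm₁ _ h (mul_mem (inv_mem hb) (I.rep_mem _))
  have e : (b * I.s)⁻¹ * (I.rep (I.v₁ b) * I.s) = I.s⁻¹ * (b⁻¹ * I.rep (I.v₁ b)) * I.s := by group
  rwa [e]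

theorem lv_v₀ {b : G} (hb : b ∈ I.B) : I.lv (I.v₀ b) = 2 * I.l b := by
  have h := I.v₀_eq.1 (I.rel₀ b)
  change 2 * I.l (I.rep (I.v₀ b)) = 2 * I.l b
  have h1 := I.l_K₀ _ h (mul_mem (inv_mem hb) (I.rep_mem _))
  have h2 := I.l_mul _ hb _ (mul_mem (inv_mem hb) (I.rep_mem (I.v₀ b)))
  rw [mul_inv_cancel_left] at h2
  omega

theorem lv_v₁ {b : G} (hb : b ∈ I.B) : I.lv (I.v₁ b) = 2 * I.l b + 1 := by
  have h := I.v₁_eq.1 (I.rel₁ b)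
  change 2 * I.l (I.rep (I.v₁ b)) + 1 = 2 * I.l b + 1
  have h1 := I.l_K₁ _ h (mul_mem (inv_mem hb) (I.rep_mem _))
  have h2 := I.l_mul _ hb _ (mul_mem (inv_mem hb) (I.rep_mem (I.v₁ b)))
  rw [mul_inv_cancel_left] at h2
  omega

theorem par_iter {b : G} (hb : b ∈ I.B) (n : ℕ) :
    I.par^[2 * n] (I.v₀ b) = I.v₀ (b * I.s ^ n) := by
  induction n with
  | zero => rw [pow_zero, mul_one]; rfl
  | succ n ih =>
    have h1 : b * I.s ^ n ∈ I.B := mul_mem hb (pow_mem I.s_mem n)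
    rw [show 2 * (n + 1) = (2 * n + 1) + 1 by ring, Function.iterate_succ_apply',
      Function.iterate_succ_apply', ih, I.par_v₀ h1, I.par_v₁ h1, pow_succ, mul_assoc]

theorem key₀ (g : G) : I.v₁ g = I.par (I.v₀ g) ∨ I.v₀ g = I.par (I.v₁ g) := by
  obtain ⟨b, hb, hk⟩ := I.iwa₀ g
  have e1 : I.v₀ g = I.v₀ b := (I.v₀_eq.2 hk).symm
  rcases I.dbl₀ _ hk with h | ⟨c, hc, h1, h2⟩
  · left
    rw [e1, I.par_v₀ hb]
    exact (I.v₁_eq.2 h).symm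
  · right
    have e2 : I.v₁ g = I.v₁ (b * c) := by
      rw [eq_comm, v₁_eq]
      have e : (b * c)⁻¹ * g = c⁻¹ * (b⁻¹ * g) := by group
      rwa [e]
    rw [e2, e1, I.par_v₁ (mul_mem hb hc), v₀_eq]
    have e : b⁻¹ * (b * c * I.s) = c * I.s := by group
    rwa [e]

theorem key₁ (g : G) : I.v₀ (g * I.s) = I.par (I.v₁ g) ∨ I.v₁ g = I.par (I.v₀ (g * I.s)) := by
  obtain ⟨b, hb, hk⟩ := I.iwa₁ g
  have e1 : I.v₁ g = I.v₁ b := (I.v₁_eq.2 hk).symm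
  rcases I.dbl₁ _ hk with h | ⟨c, hc, h1, h2⟩
  · left
    rw [e1, I.par_v₁ hb, eq_comm, v₀_eq]
    have e : (b * I.s)⁻¹ * (g * I.s) = I.s⁻¹ * (b⁻¹ * g) * I.s := by group
    rwa [e]
  · right
    have e2 : I.v₀ (g * I.s) = I.v₀ (b * c) := by
      rw [eq_comm, v₀_eq]
      have e : (b * c)⁻¹ * (g * I.s) = c⁻¹ * (b⁻¹ * g * I.s) := by group
      rwa [e]
    rw [e2, e1, I.par_v₀ (mul_mem hb hc), v₁_eq]
    rwa [inv_mul_cancel_left]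

theorem Ed_iff {x y : I.Vt} (h : I.Ed x y) : y = I.par x ∨ x = I.par y := by
  obtain ⟨g, ⟨rfl, rfl⟩ | ⟨rfl, rfl⟩⟩ := h
  · exact I.key₀ g
  · exact I.key₁ g

theorem adj_iff (x y : I.Vt) : I.tr.Adj x y ↔ (y = I.par x ∨ x = I.par y) := by
  have key : ∀ x, I.Ed x (I.par x) := by
    intro x
    obtain ⟨b, hb, rfl | rfl⟩ := I.exists_rep x
    · exact ⟨b, Or.inl ⟨rfl, I.par_v₀ hb⟩⟩
    · exact ⟨b, Or.inr ⟨rfl, I.par_v₁ hb⟩⟩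
  constructor
  · rintro (h | h)
    · exact I.Ed_iff h
    · exact (I.Ed_iff h).symm
  · rintro (rfl | rfl)
    · exact Or.inl (key x)
    · exact Or.inr (key y)

theorem isTree : I.tr.IsTree := by
  have : Nonempty I.Vt := ⟨I.v₀ 1⟩
  refine OG.isTree_of_parent I.tr I.par I.lv ?_ I.adj_iff ?_
  · intro x
    obtain ⟨b, hb, rfl | rfl⟩ := I.exists_rep x
    · rw [I.par_v₀ hb, I.lv_v₀ hb, I.lv_v₁ hb]
    · rw [I.par_v₁ hb, I.lv_v₁ hb, I.lv_v₀ (mul_mem hb I.s_mem), I.l_mul _ hb _ I.s_mem, I.l_s]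
      ring
  · have h0 : ∀ b ∈ I.B, ∀ c ∈ I.B, ∃ m n : ℕ, I.par^[m] (I.v₀ b) = I.par^[n] (I.v₀ c) := by
      intro b hb c hc
      obtain ⟨m, n, h⟩ := I.anc (b⁻¹ * c) (mul_mem (inv_mem hb) hc)
      refine ⟨2 * m, 2 * n, ?_⟩
      rw [I.par_iter hb, I.par_iter hc, v₀_eq]
      have e : (b * I.s ^ m)⁻¹ * (c * I.s ^ n) = (I.s ^ m)⁻¹ * (b⁻¹ * c) * I.s ^ n := by group
      rwa [e]
    have h1 : ∀ x, ∃ b ∈ I.B, ∃ k : ℕ, I.par^[k] x = I.v₀ b := by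
      intro x
      obtain ⟨b, hb, rfl | rfl⟩ := I.exists_rep x
      · exact ⟨b, hb, 0, rfl⟩
      · exact ⟨b * I.s, mul_mem hb I.s_mem, 1, I.par_v₁ hb⟩
    intro x y
    obtain ⟨b, hb, k, hk⟩ := h1 x
    obtain ⟨c, hc, k', hk'⟩ := h1 y
    obtain ⟨m, n, h⟩ := h0 b hb c hc
    refine ⟨m + k, n + k', ?_⟩
    rw [Function.iterate_add_apply, Function.iterate_add_apply, hk, hk', h]

end Iwa

end Pool.Agent.U722.UG
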