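import Pool.Agent.U722.OG.Lat
import Pool.Agent.U722.UG.Tree

/-!
# Hermitian forms of Witt index one
-/

set_option autoImplicit false

namespace Pool.Agent.U722.UG

open Pool.Agent.U709.BT
open Pool.Agent.U722.OG (E e₁ e₂)

section form

variable {R : Type} [CommRing R] {m : ℕ} (τ : R →+* R) (A : Matrix (Fin m) (Fin m) R)

/-- the sesquilinear form `∑ A i j τ(w_i) w'_j` -/
def hf (w w' : Fin m → R) : R := ∑ i, ∑ j, A i j * τ (w i) * w' j

theorem hf_add (w w' w'' : Fin m → R) : hf τ A w (w' + w'') = hf τ A w w' + hf τ A w w'' := by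
  unfold hf
  rw [← Finset.sum_add_distrib]
  refine Finset.sum_congr rfl fun i _ => ?_
  rw [← Finset.sum_add_distrib]
  refine Finset.sum_congr rfl fun j _ => ?_
  simp only [Pi.add_apply]
  ring

theorem hf_add_left (w w' w'' : Fin m → R) :
    hf τ A (w' + w'') w = hf τ A w' w + hf τ A w'' w := by
  unfold hf
  rw [← Finset.sum_add_distrib]
  refine Finset.sum_congr rfl fun i _ => ?_
  rw [← Finset.sum_add_distrib]
  refine Finset.sum_congr rfl fun j _ => ?_
  simp only [Pi.add_apply, map_add]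
  ring

theorem hf_smul (c : R) (w w' : Fin m → R) : hf τ A w (c • w') = c * hf τ A w w' := by
  unfold hf
  rw [Finset.mul_sum]
  refine Finset.sum_congr rfl fun i _ => ?_
  rw [Finset.mul_sum]
  refine Finset.sum_congr rfl fun j _ => ?_
  simp only [Pi.smul_apply, smul_eq_mul]
  ring

theorem hf_smul_left (c : R) (w w' : Fin m → R) : hf τ A (c • w) w' = τ c * hf τ A w w' := by
  unfold hf
  rw [Finset.mul_sum]
  refine Finset.sum_congr rfl fun i _ => ?_
  rw [Finset.mul_sum]
  refine Finset.sum_congr rfl fun j _ => ?_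
  simp only [Pi.smul_apply, smul_eq_mul, map_mul]
  ring

theorem hf_neg_left (w w' : Fin m → R) : hf τ A (-w) w' = - hf τ A w w' := by
  have := hf_smul_left τ A (-1) w w'
  rw [neg_one_smul, map_neg, map_one, neg_one_mul] at this
  exact this

theorem hf_neg (w w' : Fin m → R) : hf τ A w (-w') = - hf τ A w w' := by
  have := hf_smul τ A (-1) w w'
  rw [neg_one_smul, neg_one_mul] at this
  exact this

theorem hf_zero (w : Fin m → R) : hf τ A w 0 = 0 := by simp [hf]

theorem hf_zero_left (w : Fin m → R) : hf τ A 0 w = 0 := by simp [hf]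

variable {τ A}

theorem hf_star (hτ : ∀ r, τ (τ r) = r) (hA : ∀ i j, τ (A i j) = A j i) (w w' : Fin m → R) :
    τ (hf τ A w w') = hf τ A w' w := by
  unfold hf
  rw [map_sum, Finset.sum_comm]
  refine Finset.sum_congr rfl fun i _ => ?_
  rw [map_sum]
  refine Finset.sum_congr rfl fun j _ => ?_
  rw [map_mul, map_mul, hτ, hA]
  ring

variable (τ A)

/-- the form on the sum of a hyperbolic plane and `R ^ m` -/
def H (v v' : E R m) : R := τ v.1 * v'.2.1 + τ v.2.1 * v'.1 + hf τ A v.2.2 v'.2.2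

theorem H_smul_left (c : R) (v v' : E R m) : H τ A (c • v) v' = τ c * H τ A v v' := by
  unfold H
  rw [Prod.smul_snd, Prod.smul_snd, hf_smul_left]
  simp only [Prod.smul_fst, smul_eq_mul, map_mul]
  ring

theorem H_smul (c : R) (v v' : E R m) : H τ A v (c • v') = c * H τ A v v' := by
  unfold H
  rw [Prod.smul_snd, Prod.smul_snd, hf_smul]
  simp only [Prod.smul_fst, smul_eq_mul]
  ring

theorem H_e₁ (v : E R m) : H τ A (e₁ R m) v = v.2.1 := by
  simp [H, e₁, hf_zero_left]

theorem H_e₂ (v : E R m) : H τ A (e₂ R m) v = v.1 := by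
  simp [H, e₂, hf_zero_left]

variable {τ A}

theorem H_star (hτ : ∀ r, τ (τ r) = r) (hA : ∀ i j, τ (A i j) = A j i) (v v' : E R m) :
    τ (H τ A v v') = H τ A v' v := by
  unfold H
  rw [map_add, map_add, map_mul, map_mul, hτ, hτ, hf_star hτ hA]
  ring

end form

section field

variable {F : Type} [Field F] {m : ℕ} (τ : F →+* F) (A : Matrix (Fin m) (Fin m) F)

/-- the isometry group of the form -/
def Iso : Subgroup (E F m ≃ₗ[F] E F m) where
  carrier := {g | ∀ v v', H τ A (g v) (g v') = H τ A v v'}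
  one_mem' := fun _ _ => rfl
  mul_mem' := by
    intro g h hg hh v v'
    rw [LinearEquiv.mul_apply, LinearEquiv.mul_apply, hg, hh]
  inv_mem' := by
    intro g hg v v'
    have h1 := hg (g⁻¹ v) (g⁻¹ v')
    have h2 : g (g⁻¹ v) = v := LinearEquiv.apply_symm_apply g v
    have h3 : g (g⁻¹ v') = v' := LinearEquiv.apply_symm_apply g v'
    rw [h2, h3] at h1
    exact h1.symm

variable {τ A}

theorem Iso.inv_apply (g : Iso τ A) (v : E F m) : (g⁻¹).1 (g.1 v) = v :=
  LinearEquiv.symm_apply_apply g.1 v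

theorem Iso.apply_inv (g : Iso τ A) (v : E F m) : g.1 ((g⁻¹).1 v) = v :=
  LinearEquiv.apply_symm_apply g.1 v

theorem Iso.mul_apply (g h : Iso τ A) (v : E F m) : (g * h).1 v = g.1 (h.1 v) := rfl

theorem Iso.adj (g : Iso τ A) (v v' : E F m) : H τ A v (g.1 v') = H τ A ((g⁻¹).1 v) v' := by
  have := g.2 ((g⁻¹).1 v) v'
  rwa [Iso.apply_inv] at this

theorem Iso.adj' (g : Iso τ A) (v v' : E F m) : H τ A v ((g⁻¹).1 v') = H τ A (g.1 v) v' := by
  have := Iso.adj g⁻¹ v v'
  rwa [inv_inv] at this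

variable (τ A)

/-- the diagonal isometry -/
def dg (c : F) (hc : c ≠ 0) (hτc : τ c = c) : Iso τ A :=
  ⟨{ toFun := fun v => (c * v.1, c⁻¹ * v.2.1, v.2.2)
     invFun := fun v => (c⁻¹ * v.1, c * v.2.1, v.2.2)
     map_add' := by
       intro v v'
       simp only [Prod.fst_add, Prod.snd_add, mul_add, Prod.mk_add_mk]
     map_smul' := by
       intro a v
       simp only [Prod.smul_fst, Prod.smul_snd, smul_eq_mul, RingHom.id_apply, Prod.smul_mk]
       rw [mul_left_comm, mul_left_comm c⁻¹]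
     left_inv := by
       intro v
       simp only [← mul_assoc, inv_mul_cancel₀ hc, mul_inv_cancel₀ hc, one_mul]
     right_inv := by
       intro v
       simp only [← mul_assoc, inv_mul_cancel₀ hc, mul_inv_cancel₀ hc, one_mul] }, by
    intro v v'
    change τ (c * v.1) * (c⁻¹ * v'.2.1) + τ (c⁻¹ * v.2.1) * (c * v'.1) + hf τ A v.2.2 v'.2.2 = _
    unfold H
    rw [map_mul, map_mul, map_inv₀, hτc]
    congr 1
    field_simp⟩

theorem dg_apply (c : F) (hc : c ≠ 0) (hτc : τ c = c) (v : E F m) :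
    (dg τ A c hc hτc).1 v = (c * v.1, c⁻¹ * v.2.1, v.2.2) := rfl

theorem dg_inv_apply (c : F) (hc : c ≠ 0) (hτc : τ c = c) (v : E F m) :
    ((dg τ A c hc hτc)⁻¹).1 v = (c⁻¹ * v.1, c * v.2.1, v.2.2) := rfl

/-- the swap -/
def sw : Iso τ A :=
  ⟨{ toFun := fun v => (v.2.1, v.1, v.2.2)
     invFun := fun v => (v.2.1, v.1, v.2.2)
     map_add' := fun _ _ => rfl
     map_smul' := fun _ _ => rfl
     left_inv := fun _ => rfl
     right_inv := fun _ => rfl }, by
    intro v v'
    change τ v.2.1 * v'.1 + τ v.1 * v'.2.1 + hf τ A v.2.2 v'.2.2 = _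
    unfold H
    ring⟩

theorem sw_apply (v : E F m) : (sw τ A).1 v = (v.2.1, v.1, v.2.2) := rfl

theorem sw_inv_apply (v : E F m) : ((sw τ A)⁻¹).1 v = (v.2.1, v.1, v.2.2) := rfl

theorem sw_sw : sw τ A * sw τ A = 1 := by
  apply Subtype.ext
  apply LinearEquiv.ext
  intro v
  rfl

/-- the function of the Eichler isometry -/
def eiF (u : Fin m → F) (c : F) (v : E F m) : E F m :=
  (v.1 + v.2.1 * c - hf τ A u v.2.2, v.2.1, v.2.2 + v.2.1 • u)

theorem eiF_eiF (u : Fin m → F) (c : F) (h : c + τ c = - hf τ A u u) (v : E F m) :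
    eiF τ A (-u) (τ c) (eiF τ A u c v) = v := by
  unfold eiF
  refine Prod.ext ?_ (Prod.ext rfl ?_)
  · simp only
    rw [hf_neg_left, hf_add, hf_smul]
    linear_combination v.2.1 * h
  · simp only
    rw [smul_neg, add_neg_cancel_right]

variable {τ A}

/-- the Eichler isometry -/
def ei (hτ : ∀ r, τ (τ r) = r) (hA : ∀ i j, τ (A i j) = A j i) (u : Fin m → F) (c : F)
    (h : c + τ c = - hf τ A u u) : Iso τ A :=
  ⟨{ toFun := eiF τ A u c
     invFun := eiF τ A (-u) (τ c)
     map_add' := by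
       intro v v'
       unfold eiF
       refine Prod.ext ?_ (Prod.ext rfl ?_)
       · simp only [Prod.fst_add, Prod.snd_add]
         rw [hf_add]
         ring
       · simp only [Prod.fst_add, Prod.snd_add]
         rw [add_smul]
         abel
     map_smul' := by
       intro a v
       unfold eiF
       refine Prod.ext ?_ (Prod.ext rfl ?_)
       · simp only [Prod.smul_fst, Prod.smul_snd, smul_eq_mul, RingHom.id_apply]
         rw [hf_smul]
         ring
       · simp only [Prod.smul_snd, Prod.smul_fst, RingHom.id_apply, smul_add, smul_smul,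
           smul_eq_mul]
     left_inv := eiF_eiF τ A u c h
     right_inv := by
       intro v
       have h' : τ c + τ (τ c) = - hf τ A (-u) (-u) := by
         rw [hτ, hf_neg_left, hf_neg, neg_neg, ← h]
         ring
       have := eiF_eiF τ A (-u) (τ c) h' v
       rwa [neg_neg, hτ] at this }, by
    intro v v'
    change H τ A (eiF τ A u c v) (eiF τ A u c v') = H τ A v v'
    unfold H eiF
    simp only
    rw [hf_add, hf_add_left, hf_add_left, hf_smul, hf_smul, hf_smul_left, hf_smul_left, map_sub,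
      map_add, map_mul, hf_star hτ hA]
    linear_combination τ v.2.1 * v'.2.1 * h⟩

theorem ei_apply (hτ : ∀ r, τ (τ r) = r) (hA : ∀ i j, τ (A i j) = A j i) (u : Fin m → F) (c : F)
    (h : c + τ c = - hf τ A u u) (v : E F m) : (ei hτ hA u c h).1 v =
    (v.1 + v.2.1 * c - hf τ A u v.2.2, v.2.1, v.2.2 + v.2.1 • u) := rfl

theorem ei_inv_apply (hτ : ∀ r, τ (τ r) = r) (hA : ∀ i j, τ (A i j) = A j i) (u : Fin m → F)
    (c : F) (h : c + τ c = - hf τ A u u) (v : E F m) : ((ei hτ hA u c h)⁻¹).1 v =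
    (v.1 + v.2.1 * τ c - hf τ A (-u) v.2.2, v.2.1, v.2.2 + v.2.1 • (-u)) := rfl

end field

end Pool.Agent.U722.UG
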