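import Pool.Agent.U722.UG.Bld

/-!
# The Iwasawa decomposition and bounded stabilizers
-/

set_option autoImplicit false

namespace Pool.Agent.U722.UG

open Pool.Agent.U709.BT
open Pool.Agent.U722.OG (E e₁ e₂ Lw Lat Lw_zero Lw_add Lw_neg Lw_smul Lw_mono Lat_zero Lat_add Lat_smul
  Lat_mono v_pow exists_v bnd e₃ decomp L_pow L_pow_inv L_w L_winv unit_of split3)

variable {F : Type} [Field F] {V : DV F} {m : ℕ} {τ : F →+* F} {A : Matrix (Fin m) (Fin m) F}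

theorem tau_ne (hA : An V τ A) {x : F} (hx : x ≠ 0) : τ x ≠ 0 := by
  intro h0
  apply hx
  rw [← hA.inv x, h0, map_zero]

/-- an isotropic vector with dominant second coordinate is moved to the line of `e₁` -/
theorem move (hA : An V τ A) (x y : F) (w : Fin m → F)
    (hq : τ x * y + τ y * x + hf τ A w w = 0) (hy : y ≠ 0)
    (hxy : V.L (V.v y) x) : ∃ k ∈ Kg V τ A, (k.1 ((x, y, w) : E F m)).2 = 0 := by
  have h2 : V.L (-(V.v y)) y⁻¹ := fun _ => by rw [V.v_inv hy]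
  have hLc : V.L 0 (y⁻¹ * x) := by
    have h3 := DV.L_mul h2 hxy
    rwa [neg_add_cancel] at h3
  have hLu : Lw V 0 (y⁻¹ • w) := by
    rw [Lw_iff hA 0]
    have e : hf τ A (y⁻¹ • w) (y⁻¹ • w) = - (y⁻¹ * x + τ (y⁻¹ * x)) := by
      rw [ei_eq hA hq hy, neg_neg]
    rw [e]
    exact DV.L_neg (DV.L_add hLc (hA.L hLc))
  have he := ei_mem hA (ei_eq hA hq hy) hLu hLc
  have hmv := ei_inv_move hA hq hy
  refine ⟨sw τ A * (ei hA.inv hA.herm (y⁻¹ • w) (y⁻¹ * x) (ei_eq hA hq hy))⁻¹,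
    mul_mem sw_mem (inv_mem he), ?_⟩
  rw [Iso.mul_apply, hmv, sw_apply]
  refine Prod.ext ?_ ?_
  · simp [e₂]
  · simp [e₂]

theorem iwa₀ (hA : An V τ A) (g : Iso τ A) : ∃ b ∈ Bg τ A, b⁻¹ * g ∈ Kg V τ A := by
  obtain ⟨x, hx⟩ : ∃ x, x = ((g⁻¹).1 (e₁ F m)).1 := ⟨_, rfl⟩
  obtain ⟨y, hy⟩ : ∃ y, y = ((g⁻¹).1 (e₁ F m)).2.1 := ⟨_, rfl⟩
  obtain ⟨w, hw⟩ : ∃ w, w = ((g⁻¹).1 (e₁ F m)).2.2 := ⟨_, rfl⟩
  have hge : (g⁻¹).1 (e₁ F m) = (x, y, w) := by rw [hx, hy, hw]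
  have hq := isot g⁻¹ hge
  have key : ∃ k ∈ Kg V τ A, (k.1 ((x, y, w) : E F m)).2 = 0 := by
    by_cases hc : x ≠ 0 ∧ V.L (V.v x) y
    · obtain ⟨k, hk, hk'⟩ := move hA y x w (by rw [add_comm (τ y * x)]; exact hq) hc.1 hc.2
      refine ⟨k * sw τ A, mul_mem hk sw_mem, ?_⟩
      rw [Iso.mul_apply, sw_apply]
      exact hk'
    · have hy0 : y ≠ 0 := by
        intro hy0
        apply hc
        refine ⟨?_, by rw [hy0]; exact V.L_zero _⟩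
        intro hx0
        rw [hx0, hy0] at hq
        simp only [mul_zero, zero_add] at hq
        have hw0 := hf_ne hA hq
        rw [hx0, hy0, hw0] at hge
        have h1 := Iso.apply_inv g (e₁ F m)
        have h2 : ((0, 0, 0) : E F m) = 0 := rfl
        rw [hge, h2, map_zero] at h1
        have := congrArg Prod.fst h1
        simp [e₁] at this
      refine move hA x y w hq hy0 fun hx0 => ?_
      by_contra hlt
      exact hc ⟨hx0, fun _ => by omega⟩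
  obtain ⟨k, hk, hk'⟩ := key
  refine ⟨g * k⁻¹, ?_, ?_⟩
  · have h1 : (g * k⁻¹)⁻¹ ∈ Bg τ A := by
      rw [mul_inv_rev, inv_inv, mem_Bg, Iso.mul_apply, hge]
      exact hk'
    have := inv_mem h1
    rwa [inv_inv] at this
  · rw [mul_inv_rev, inv_inv, inv_mul_cancel_right]
    exact hk

theorem app3 (g : Iso τ A) (c d : F) (z : E F m) :
    g.1 (c • e₁ F m + d • e₂ F m + z) = c • g.1 (e₁ F m) + d • g.1 (e₂ F m) + g.1 z := by
  rw [map_add, map_add, map_smul, map_smul]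

theorem anc1 (hA : An V τ A) {b : Iso τ A} (hb : b ∈ Bg τ A) : ∃ N : ℕ, ∀ p n : ℕ, N ≤ p → N ≤ n →
    (p : ℤ) - n = - V.v (b.1 (e₁ F m)).1 → ∀ v, Lat V 0 v →
      Lat V 0 (((tl hA ^ p)⁻¹ * b * tl hA ^ n).1 v) := by
  obtain ⟨N, hN⟩ := bnd (V := V) b.1
  refine ⟨N, fun p n hp hn hpn v hv => ?_⟩
  obtain ⟨a, ha⟩ : ∃ a, a = (b.1 (e₁ F m)).1 := ⟨_, rfl⟩
  have hbe : b.1 (e₁ F m) = a • e₁ F m := by rw [ha]; exact Bg_apply hb
  have ha0 : a ≠ 0 := by rw [ha]; exact Bg_ne hb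
  have hta0 : τ a ≠ 0 := tau_ne hA ha0
  rw [← ha] at hpn
  obtain ⟨u, hu⟩ : ∃ u, u = b.1 ((0, 0, v.2.2) : E F m) := ⟨_, rfl⟩
  have hLu : Lat V (0 - N) u := by
    rw [hu]
    exact hN 0 _ (Lat_e₃ hv.2.2)
  have hu1 : u.2.1 = 0 := by
    have h3 := b.2 (e₁ F m) ((0, 0, v.2.2) : E F m)
    rw [← hu, hbe, H_smul_left, H_e₁, H_e₁] at h3
    exact (mul_eq_zero.1 h3).resolve_left hta0
  have hu2 : Lw V 0 u.2.2 := by
    have h3 := b.2 ((0, 0, v.2.2) : E F m) ((0, 0, v.2.2) : E F m)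
    rw [← hu] at h3
    have h4 : hf τ A u.2.2 u.2.2 = hf τ A v.2.2 v.2.2 := by
      simpa [H, hu1] using h3
    rw [Lw_iff hA 0, h4]
    exact (Lw_iff hA 0 _).1 hv.2.2
  obtain ⟨f, hf'⟩ : ∃ f, f = b.1 (e₂ F m) := ⟨_, rfl⟩
  have hLf : Lat V (0 - N) f := by
    rw [hf']
    exact hN 0 _ Lat_e₂
  have hf1 : f.2.1 = (τ a)⁻¹ := by
    have h3 := b.2 (e₁ F m) (e₂ F m)
    rw [← hf', hbe, H_smul_left, H_e₁, H_e₁] at h3
    have h5 : (e₂ F m).2.1 = 1 := rfl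
    rw [h5] at h3
    exact eq_inv_of_mul_eq_one_right h3
  have hva : V.L (V.v a) a := fun _ => le_rfl
  have hva' : V.L (-(V.v a)) (τ a)⁻¹ := fun _ => by rw [V.v_inv hta0, hA.vt]
  rw [Iso.mul_apply, Iso.mul_apply, tl_pow_apply, split3, app3, hbe, ← hf', ← hu,
    tl_pow_inv_apply]
  refine ⟨?_, ?_, ?_⟩
  · have e : V.w ^ p * ((((V.w ^ n)⁻¹ * v.1) • a • e₁ F m + (V.w ^ n * v.2.1) • f + u : E F m).1) =
        V.w ^ p * ((V.w ^ n)⁻¹ * (v.1 * a)) + V.w ^ p * (V.w ^ n * (v.2.1 * f.1)) +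
          V.w ^ p * u.1 := by
      simp only [Prod.fst_add, Prod.smul_fst, smul_eq_mul, e₁]
      ring
    rw [e]
    refine DV.L_add (DV.L_add ?_ ?_) ?_
    · exact DV.L_mono (by omega) (L_pow p (L_pow_inv n (DV.L_mul hv.1 hva)))
    · exact DV.L_mono (by omega) (L_pow p (L_pow n (DV.L_mul hv.2.1 hLf.1)))
    · exact DV.L_mono (by omega) (L_pow p hLu.1)
  · have e : (V.w ^ p)⁻¹ * ((((V.w ^ n)⁻¹ * v.1) • a • e₁ F m + (V.w ^ n * v.2.1) • f + u : E F m).2.1) =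
        (V.w ^ p)⁻¹ * (V.w ^ n * (v.2.1 * (τ a)⁻¹)) := by
      simp only [Prod.snd_add, Prod.fst_add, Prod.smul_snd, Prod.smul_fst, smul_eq_mul, e₁, hu1, hf1]
      ring
    rw [e]
    exact DV.L_mono (by omega) (L_pow_inv p (L_pow n (DV.L_mul hv.2.1 hva')))
  · have e : (((V.w ^ n)⁻¹ * v.1) • a • e₁ F m + (V.w ^ n * v.2.1) • f + u : E F m).2.2 =
        (V.w ^ n * v.2.1) • f.2.2 + u.2.2 := by
      simp only [Prod.snd_add, Prod.smul_snd, e₁, smul_zero, zero_add]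
    rw [e]
    exact Lw_add (Lw_mono (by omega) (Lw_smul (L_pow n hv.2.1) hLf.2.2)) hu2

theorem anc (hA : An V τ A) {b : Iso τ A} (hb : b ∈ Bg τ A) :
    ∃ p n : ℕ, (tl hA ^ p)⁻¹ * b * tl hA ^ n ∈ Kg V τ A := by
  obtain ⟨N1, h1⟩ := anc1 hA hb
  obtain ⟨N2, h2⟩ := anc1 hA (inv_mem hb)
  obtain ⟨d, hd⟩ : ∃ d, d = V.v (b.1 (e₁ F m)).1 := ⟨_, rfl⟩
  have hd' : V.v ((b⁻¹).1 (e₁ F m)).1 = - d := by
    have h3 := Bg_mul (g := b⁻¹) hb
    rw [inv_mul_cancel] at h3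
    have h4 : ((1 : Iso τ A).1 (e₁ F m)).1 = 1 := rfl
    rw [h4] at h3
    have h5 := V.map_mul _ _ (Bg_ne hb) (Bg_ne (inv_mem hb))
    rw [← h3, V.v_one] at h5
    omega
  refine ⟨N1 + N2 + (-d).toNat, N1 + N2 + d.toNat, h1 _ _ (by omega) (by omega) (by omega), ?_⟩
  have e : ((tl hA ^ (N1 + N2 + (-d).toNat))⁻¹ * b * tl hA ^ (N1 + N2 + d.toNat))⁻¹ =
      (tl hA ^ (N1 + N2 + d.toNat))⁻¹ * b⁻¹ * tl hA ^ (N1 + N2 + (-d).toNat) := by group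
  rw [e]
  exact h2 _ _ (by omega) (by omega) (by omega)

/-- the Iwasawa data -/
noncomputable def iwd (hA : An V τ A) : Iwa (Iso τ A) where
  K₀ := Kg V τ A
  K₁ := Kt V τ A
  B := Bg τ A
  s := tl hA
  l := fun g => - V.v (g.1 (e₁ F m)).1
  s_mem := tl_mem_B hA
  l_mul := by
    intro a ha b hb
    rw [Bg_mul hb, V.map_mul _ _ (Bg_ne hb) (Bg_ne ha)]
    ring
  l_s := by
    rw [tl_apply]
    have : V.w⁻¹ * (e₁ F m).1 = V.w⁻¹ := mul_one _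
    simp only
    rw [this, V.v_inv V.w_ne, V.v_w]
    norm_num
  l_K₀ := by
    intro k hk hkB
    have h1 := (hk.1 _ Lat_e₁).1 (Bg_ne hkB)
    have h2 := (hk.2 _ Lat_e₁).1 (Bg_ne (inv_mem hkB))
    have h3 := Bg_mul (g := k⁻¹) hkB
    rw [inv_mul_cancel] at h3
    have h4 : ((1 : Iso τ A).1 (e₁ F m)).1 = 1 := rfl
    rw [h4] at h3
    have h5 := V.map_mul _ _ (Bg_ne hkB) (Bg_ne (inv_mem hkB))
    rw [← h3, V.v_one] at h5
    omega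
  iwa₀ := iwa₀ hA
  nrm₀ := fun k hk hkB => nrm₀ hA hk hkB
  nrm₁ := fun k hk hkB => nrm₁ hA hk hkB
  dbl₀ := fun k hk => dbl₀ hA hk
  dbl₁ := fun k hk => dbl₁ hA hk
  anc := fun b hb => anc hA hb

/-- elements of the two stabilizers are bounded -/
theorem kt_bnd {g : Iso τ A} (hg : g ∈ Kt V τ A) {v : E F m} (hv : Lat V 0 v) :
    Lat V (-1) (g.1 v) := by
  have h := hg.1 _ (Lt_of_Lat hv)
  exact ⟨h.1, DV.L_mono (by norm_num) h.2.1, Lw_mono (by norm_num) h.2.2⟩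

/-- conjugates of bounded elements -/
theorem conj_bnd (b : Iso τ A) : ∃ N : ℕ, ∀ g : Iso τ A,
    (∀ v, Lat V 0 v → Lat V (-1) ((b⁻¹ * g * b).1 v)) →
    ∀ v, Lat V 0 v → Lat V (-(N : ℤ)) (g.1 v) := by
  obtain ⟨N1, h1⟩ := bnd (V := V) b.1
  obtain ⟨N2, h2⟩ := bnd (V := V) (b⁻¹).1
  refine ⟨N1 + N2 + 1, fun g hk v hv => ?_⟩
  have h3 := h2 0 v hv
  have h4 : Lat V (0 - N2 - 1) ((b⁻¹ * g * b).1 ((b⁻¹).1 v)) := by
    obtain ⟨c, hc, hvc⟩ := exists_v V N2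
    have h5 : Lat V 0 (c • (b⁻¹).1 v) := by
      have h6 : V.L (N2 : ℤ) c := fun _ => hvc.ge
      exact Lat_mono (by omega) (Lat_smul h6 h3)
    have h7 := hk _ h5
    have h8 : V.L (-(N2 : ℤ)) c⁻¹ := fun _ => by rw [V.v_inv hc, hvc]
    have h9 := Lat_smul h8 h7
    rw [← map_smul, smul_smul, inv_mul_cancel₀ hc, one_smul] at h9
    exact Lat_mono (by omega) h9
  have h10 := h1 _ _ h4
  have e : b.1 ((b⁻¹ * g * b).1 ((b⁻¹).1 v)) = g.1 v := by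
    change (b * (b⁻¹ * g * b) * b⁻¹).1 v = g.1 v
    congr 2
    group
  rw [e] at h10
  exact Lat_mono (by push_cast; omega) h10

/-- the elements which fix a vertex are bounded -/
theorem stab_bnd (hA : An V τ A) (x : (iwd hA).Vt) : ∃ N : ℕ, ∀ g : Iso τ A, g • x = x →
    ∀ v, Lat V 0 v → Lat V (-(N : ℤ)) (g.1 v) := by
  obtain ⟨b, -, rfl | rfl⟩ := (iwd hA).exists_rep x
  · obtain ⟨N, hN⟩ := conj_bnd (V := V) b
    refine ⟨N, fun g hg => hN g fun v hv => ?_⟩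
    have hk : b⁻¹ * g * b ∈ Kg V τ A := by
      have h1 : (iwd hA).v₀ (g * b) = (iwd hA).v₀ b := hg
      have h2 := (iwd hA).v₀_eq.1 h1.symm
      rwa [← mul_assoc] at h2
    exact Lat_mono (by norm_num) (hk.1 _ hv)
  · obtain ⟨N, hN⟩ := conj_bnd (V := V) b
    refine ⟨N, fun g hg => hN g fun v hv => ?_⟩
    have hk : b⁻¹ * g * b ∈ Kt V τ A := by
      have h1 : (iwd hA).v₁ (g * b) = (iwd hA).v₁ b := hg
      have h2 := (iwd hA).v₁_eq.1 h1.symm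
      rwa [← mul_assoc] at h2
    exact kt_bnd hk hv

end Pool.Agent.U722.UG
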