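import Pool.Agent.U722.UG.Dom
import Pool.Agent.U722.OG.Fld

/-!
# Unitary groups over polynomial rings and graded rings
-/

set_option autoImplicit false

namespace Pool.Agent.U722.UG

open Matrix
open Pool.Agent.U709.BT
open Pool.Agent.U709 (IsDegree isDegree_natDegree pow_dvd_of_mem)
open Pool.Agent.Y110.FJ (ClosedE)
open Pool.Agent.U722.OG (Ix span_ind gl_inj)

variable {C : ∀ (G : Type) [Group G], Prop}

section change

variable {R : Type} [CommRing R] {m : ℕ} (τ : R →+* R) (A : Matrix (Fin m) (Fin m) R)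

theorem HH_add (v v' v'' : Ix m → R) : HH τ A v (v' + v'') = HH τ A v v' + HH τ A v v'' := by
  unfold HH
  have h : (fun i => (v' + v'') (Sum.inr i)) =
    (fun i => v' (Sum.inr i)) + fun i => v'' (Sum.inr i) := rfl
  rw [h, hf_add]
  simp only [Pi.add_apply]
  ring

theorem HH_add_left (v v' v'' : Ix m → R) :
    HH τ A (v' + v'') v = HH τ A v' v + HH τ A v'' v := by
  unfold HH
  have h : (fun i => (v' + v'') (Sum.inr i)) =
    (fun i => v' (Sum.inr i)) + fun i => v'' (Sum.inr i) := rfl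
  rw [h, hf_add_left]
  simp only [Pi.add_apply, map_add]
  ring

theorem HH_zero (v : Ix m → R) : HH τ A v 0 = 0 := by
  have := HH_smul τ A 1 0 v 0
  rwa [zero_smul, mul_zero, zero_mul, one_smul] at this

theorem HH_zero_left (v : Ix m → R) : HH τ A 0 v = 0 := by
  have := HH_smul τ A 0 1 0 v
  rwa [zero_smul, map_zero, zero_mul, zero_mul, one_smul] at this

variable {τ A}

/-- change of rings -/
theorem Uni_map {S : Type} [CommRing S] (φ : R →+* S) {σ : S →+* S}
    (h : ∀ r, φ (τ r) = σ (φ r)) {g : GL (Ix m) R} (hg : g ∈ Uni τ A) :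
    GeneralLinearGroup.map φ g ∈ Uni σ (A.map φ) := by
  obtain ⟨G, hG⟩ : ∃ G, G = (GeneralLinearGroup.map φ g).1 := ⟨_, rfl⟩
  have hb : ∀ i : Ix m, G *ᵥ (Pi.single i 1) = fun j => φ ((g.1 *ᵥ (Pi.single i 1)) j) := by
    intro i
    funext j
    rw [Matrix.mulVec_single_one, Matrix.mulVec_single_one, hG]
    rfl
  have hs : ∀ i : Ix m, (Pi.single i 1 : Ix m → S) = fun j => φ ((Pi.single i 1 : Ix m → R) j) := by
    intro i
    funext j
    rw [Pi.single_apply, Pi.single_apply]
    split_ifs <;> simp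
  have h1 : ∀ i j : Ix m, HH σ (A.map φ) (G *ᵥ (Pi.single i 1)) (G *ᵥ (Pi.single j 1)) =
      HH σ (A.map φ) (Pi.single i 1) (Pi.single j 1) := by
    intro i j
    rw [hb, hb, HH_map φ h, hg, hs i, hs j, HH_map φ h]
  have h2 : ∀ (i : Ix m) (v : Ix m → S), HH σ (A.map φ) (G *ᵥ (Pi.single i 1)) (G *ᵥ v) =
      HH σ (A.map φ) (Pi.single i 1) v := by
    intro i
    refine span_ind _ ?_ ?_ ?_ (h1 i)
    · rw [Matrix.mulVec_zero, HH_zero, HH_zero]
    · intro v v' hv hv'
      rw [Matrix.mulVec_add, HH_add, HH_add, hv, hv']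
    · intro c v hv
      have h3 := HH_smul σ (A.map φ) 1 c (G *ᵥ (Pi.single i 1)) (G *ᵥ v)
      have h4 := HH_smul σ (A.map φ) 1 c (Pi.single i 1) v
      rw [one_smul] at h3 h4
      rw [Matrix.mulVec_smul, h3, h4, hv]
  intro u v
  rw [← hG]
  refine span_ind (fun u => HH σ (A.map φ) (G *ᵥ u) (G *ᵥ v) = HH σ (A.map φ) u v) ?_ ?_ ?_ ?_ u
  · rw [Matrix.mulVec_zero, HH_zero_left, HH_zero_left]
  · intro u u' hu hu'
    rw [Matrix.mulVec_add, HH_add_left, HH_add_left, hu, hu']
  · intro c u hu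
    have h3 := HH_smul σ (A.map φ) c 1 (G *ᵥ u) (G *ᵥ v)
    have h4 := HH_smul σ (A.map φ) c 1 u v
    rw [one_smul] at h3 h4
    rw [Matrix.mulVec_smul, h3, h4, hu]
  · intro i
    exact h2 i v

end change

/-- the form is hermitian and anisotropic, `τ` is an involution -/
structure Her {R : Type} [CommRing R] {m : ℕ} (τ : R →+* R) (A : Matrix (Fin m) (Fin m) R) :
    Prop where
  inv : ∀ r, τ (τ r) = r
  herm : ∀ i j, τ (A i j) = A j i
  anis : ∀ w : Fin m → R, hf τ A w w = 0 → w = 0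

section poly

variable {Q₀ : Type} [CommRing Q₀] [IsDomain Q₀] {m : ℕ}

theorem Her.inj {R : Type} [CommRing R] {m : ℕ} {τ : R →+* R} {A : Matrix (Fin m) (Fin m) R}
    (h : Her τ A) : Function.Injective τ := fun a b hab => by rw [← h.inv a, hab, h.inv]

theorem AnD_poly {τ : Q₀ →+* Q₀} {A : Matrix (Fin m) (Fin m) Q₀} (hA : Her τ A) :
    AnD (Polynomial.natDegree : Polynomial Q₀ → ℕ) (Polynomial.mapRingHom τ)
      (A.map Polynomial.C) := by
  classical
  refine ⟨?_, ?_, ?_, ?_, ?_, ?_⟩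
  · intro r
    ext n
    simp [hA.inv]
  · intro r
    exact Polynomial.natDegree_map_eq_of_injective hA.inj r
  · intro r _
    refine ⟨Polynomial.X ^ r.natDegree, pow_ne_zero _ Polynomial.X_ne_zero, ?_, ?_⟩
    · simp
    · rw [Polynomial.natDegree_X_pow]
  · intro i j
    rw [Matrix.map_apply, Matrix.map_apply, ← hA.herm]
    simp [hA.inv]
  · intro i j _
    rw [Matrix.map_apply, Polynomial.natDegree_C]
  intro w hw
  obtain ⟨i₀, hi₀⟩ := Function.ne_iff.1 hw
  obtain ⟨i, hi, hmax⟩ := (Finset.univ.filter fun i => w i ≠ 0).exists_max_image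
    (fun i => (w i).natDegree) ⟨i₀, by simpa using hi₀⟩
  have hi' : w i ≠ 0 := by simpa using hi
  have hmax' : ∀ j, (w j).natDegree ≤ (w i).natDegree := by
    intro j
    by_cases hj : w j = 0
    · rw [hj, Polynomial.natDegree_zero]
      exact Nat.zero_le _
    · exact hmax j (by simpa using hj)
  obtain ⟨d, hd⟩ : ∃ d, d = (w i).natDegree := ⟨_, rfl⟩
  have hτd : ∀ p : Polynomial Q₀, (Polynomial.mapRingHom τ p).natDegree = p.natDegree :=
    fun p => Polynomial.natDegree_map_eq_of_injective hA.inj p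
  have hcoeff : (hf (Polynomial.mapRingHom τ) (A.map Polynomial.C) w w).coeff (d + d) =
      hf τ A (fun j => (w j).coeff d) (fun j => (w j).coeff d) := by
    unfold hf
    rw [Polynomial.finsetSum_coeff]
    refine Finset.sum_congr rfl fun j _ => ?_
    rw [Polynomial.finsetSum_coeff]
    refine Finset.sum_congr rfl fun k _ => ?_
    rw [Matrix.map_apply, mul_assoc, Polynomial.coeff_C_mul, mul_assoc]
    congr 1
    have h1 := Polynomial.coeff_mul_add_eq_of_natDegree_le
      (f := Polynomial.mapRingHom τ (w j)) (g := w k) (df := d) (dg := d)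
      (by rw [hτd]; exact hd ▸ hmax' j) (hd ▸ hmax' k)
    rw [h1]
    congr 1
    simp
  have hne : hf τ A (fun j => (w j).coeff d) (fun j => (w j).coeff d) ≠ 0 := by
    intro h0
    have h1 := congrFun (hA.anis _ h0) i
    have h2 : (w i).leadingCoeff = 0 := by
      rw [Polynomial.leadingCoeff, ← hd]
      exact h1
    exact hi' (Polynomial.leadingCoeff_eq_zero.1 h2)
  have hle : (hf (Polynomial.mapRingHom τ) (A.map Polynomial.C) w w).natDegree ≤ d + d := by
    unfold hf
    refine Polynomial.natDegree_sum_le_of_forall_le _ _ fun j _ => ?_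
    refine Polynomial.natDegree_sum_le_of_forall_le _ _ fun k _ => ?_
    rw [Matrix.map_apply, mul_assoc]
    refine (Polynomial.natDegree_C_mul_le _ _).trans ?_
    exact Polynomial.natDegree_mul_le_of_le (by rw [hτd]; exact hd ▸ hmax' j) (hd ▸ hmax' k)
  have hge : d + d ≤ (hf (Polynomial.mapRingHom τ) (A.map Polynomial.C) w w).natDegree :=
    Polynomial.le_natDegree_of_ne_zero (by rw [hcoeff]; exact hne)
  refine ⟨i, hi', ?_, ?_, fun j _ => hmax' j⟩
  · intro h0
    rw [h0, Polynomial.coeff_zero] at hcoeff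
    exact hne hcoeff.symm
  · rw [← hd]
    omega

/-- **Specialization** -/
theorem spec (hC : ClosedE C) (hS : ∀ (G : Type) [Group G], Group.IsSolvable G → C G)
    {τ : Q₀ →+* Q₀} {A : Matrix (Fin m) (Fin m) Q₀} (hA : Her τ A)
    (Γ : Subgroup (GL (Ix m) (Polynomial Q₀)))
    (hΓA : Γ ≤ Uni (Polynomial.mapRingHom τ) (A.map Polynomial.C))
    (hΓ : C (Γ.map (GeneralLinearGroup.map Polynomial.constantCoeff))) : C Γ := by
  refine main_dom hC hS (isDegree_natDegree Q₀) (AnD_poly hA) Polynomial.constantCoeff ?_ Γ hΓA hΓ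
  intro n
  refine ⟨n + 1, fun r hr h0 => ?_⟩
  have h1 := pow_dvd_of_mem _ r hr
  have h2 := Polynomial.natDegree_le_of_dvd h1 h0
  rw [Polynomial.natDegree_X_pow] at h2
  omega

/-- the inclusion of unitary groups -/
theorem incl (hC : ClosedE C) {X Y : Type} [CommRing X] [CommRing Y] (f : X →+* Y)
    (hf : Function.Injective f) {τ : X →+* X} {σ : Y →+* Y} (h : ∀ r, f (τ r) = σ (f r))
    {A : Matrix (Fin m) (Fin m) X} (h' : C (Uni σ (A.map f))) : C (Uni τ A) := by
  refine hC.base.of_injective _ _ (((GeneralLinearGroup.map (n := Ix m) f).comp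
    (Uni τ A).subtype).codRestrict _ (fun x => Uni_map f h x.2)) ?_ h'
  intro a b hab
  apply Subtype.ext
  exact gl_inj f hf (congrArg Subtype.val hab)

/-- rings with a homomorphism to a polynomial ring -/
theorem spec_hom (hC : ClosedE C) (hS : ∀ (G : Type) [Group G], Group.IsSolvable G → C G)
    {R S : Type} [CommRing R] [CommRing S] (Φ : R →+* Polynomial Q₀) (hΦ : Function.Injective Φ)
    (ψ : R →+* S) (κ : S →+* Q₀) (hκ : Function.Injective κ)
    (hψ : ∀ r, (Φ r).coeff 0 = κ (ψ r)) {τ : Q₀ →+* Q₀} {τR : R →+* R} {τS : S →+* S}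
    (hτR : ∀ r, Φ (τR r) = Polynomial.mapRingHom τ (Φ r)) (hτS : ∀ s, κ (τS s) = τ (κ s))
    (A : Matrix (Fin m) (Fin m) S) (hA : Her τ (A.map κ))
    (A' : Matrix (Fin m) (Fin m) R) (hA' : ∀ i j, Φ (A' i j) = Polynomial.C (κ (A i j)))
    (h : C (Uni τS A)) : C (Uni τR A') := by
  have hinj := gl_inj (m := m) Φ hΦ
  obtain ⟨Γ, hΓ⟩ : ∃ Γ, Γ = (Uni τR A').map (GeneralLinearGroup.map (n := Ix m) Φ) := ⟨_, rfl⟩
  have hmap : A'.map Φ = (A.map κ).map Polynomial.C := by
    ext1 i j
    exact hA' i j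
  have hmap' : A'.map ψ = A := by
    ext1 i j
    apply hκ
    have h1 := hψ (A' i j)
    rw [hA', Polynomial.coeff_C_zero] at h1
    exact h1.symm
  have hψτ : ∀ r, ψ (τR r) = τS (ψ r) := by
    intro r
    apply hκ
    rw [← hψ, hτR, hτS, ← hψ]
    simp
  have h1 : C Γ := by
    refine spec hC hS hA Γ ?_ ?_
    · rw [hΓ, ← hmap]
      rintro _ ⟨g, hg, rfl⟩
      exact Uni_map Φ hτR hg
    · obtain ⟨Δ, hΔ⟩ : ∃ Δ, Δ = (Uni τS A).map (GeneralLinearGroup.map (n := Ix m) κ) := ⟨_, rfl⟩
      have hle : Γ.map (GeneralLinearGroup.map Polynomial.constantCoeff) ≤ Δ := by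
        rw [hΓ, hΔ]
        rintro _ ⟨_, ⟨g, hg, rfl⟩, rfl⟩
        refine ⟨GeneralLinearGroup.map ψ g, ?_, ?_⟩
        · have := Uni_map ψ hψτ hg
          rwa [hmap'] at this
        · apply GeneralLinearGroup.ext
          intro i j
          exact (hψ (g.1 i j)).symm
      have h2 : C Δ := by
        rw [hΔ]
        let e := (Uni τS A).equivMapOfInjective _ (gl_inj (m := m) κ hκ)
        exact hC.base.of_injective _ _ e.symm.toMonoidHom e.symm.injective h
      exact hC.base.of_injective _ _ (Subgroup.inclusion hle) (Subgroup.inclusion_injective hle) h2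
  rw [hΓ] at h1
  let e := (Uni τR A').equivMapOfInjective _ hinj
  exact hC.base.of_injective _ _ e.toMonoidHom e.injective h1

end poly

section graded

variable {R : Type} [CommRing R] (𝒜 : ℕ → AddSubgroup R) [GradedRing 𝒜] {m : ℕ}

open Pool.Agent.U709 (toPoly toPoly_hom toPoly_eval toPoly_coeff)

theorem toPoly_tau (τ : R →+* R) (hτ : ∀ n, ∀ a ∈ 𝒜 n, τ a ∈ 𝒜 n) (r : R) :
    toPoly 𝒜 (τ r) = Polynomial.mapRingHom τ (toPoly 𝒜 r) := by
  induction r using DirectSum.Decomposition.inductionOn 𝒜 with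
  | zero => simp
  | homogeneous m =>
    rename_i i
    rw [toPoly_hom 𝒜 m.2, toPoly_hom 𝒜 (hτ i _ m.2), Polynomial.coe_mapRingHom,
      Polynomial.map_monomial]
  | add a b ha hb => rw [map_add, map_add, map_add, map_add, ha, hb]

/-- **graded domains** -/
theorem graded (hC : ClosedE C) (hS : ∀ (G : Type) [Group G], Group.IsSolvable G → C G)
    [IsDomain R] (τ : R →+* R) (hτ : ∀ n, ∀ a ∈ 𝒜 n, τ a ∈ 𝒜 n)
    (τ₀ : SetLike.GradeZero.subring 𝒜 →+* SetLike.GradeZero.subring 𝒜)
    (hτ₀ : ∀ a, (τ₀ a : R) = τ a)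
    (A : Matrix (Fin m) (Fin m) (SetLike.GradeZero.subring 𝒜))
    (hA : Her τ (A.map (SetLike.GradeZero.subring 𝒜).subtype)) :
    C (Uni τ (A.map (SetLike.GradeZero.subring 𝒜).subtype)) ↔ C (Uni τ₀ A) := by
  constructor
  · intro h
    exact incl hC _ Subtype.val_injective hτ₀ h
  · intro h
    refine spec_hom hC hS (toPoly 𝒜) ?_
      ((Polynomial.constantCoeff.comp (toPoly 𝒜)).codRestrict (SetLike.GradeZero.subring 𝒜)
        (toPoly_coeff 𝒜)) (SetLike.GradeZero.subring 𝒜).subtype Subtype.val_injective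
      (fun r => rfl) (toPoly_tau 𝒜 τ hτ) hτ₀ A hA _ ?_ h
    · intro a b hab
      rw [← toPoly_eval 𝒜 a, hab, toPoly_eval]
    · intro i j
      exact toPoly_hom 𝒜 (A i j).2

end graded

section mv

variable {m : ℕ}

open MvPolynomial in
/-- anisotropy passes to polynomial rings -/
theorem Her_mv (σ Q₀ : Type) [CommRing Q₀] [IsDomain Q₀] {τ : Q₀ →+* Q₀}
    {A : Matrix (Fin m) (Fin m) Q₀} (hA : Her τ A) :
    Her (MvPolynomial.map (σ := σ) τ) (A.map (MvPolynomial.C (σ := σ))) := by
  classical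
  refine ⟨?_, ?_, ?_⟩
  · intro r
    rw [MvPolynomial.map_map]
    have h : τ.comp τ = RingHom.id _ := RingHom.ext hA.inv
    rw [h, MvPolynomial.map_id]
  · intro i j
    rw [Matrix.map_apply, Matrix.map_apply, ← hA.herm]
    simp [hA.inv]
  let L₀ : LinearOrder σ := IsWellOrder.linearOrder WellOrderingRel
  let L : LinearOrder σ := @OrderDual.instLinearOrder σ L₀
  have hwf : WellFoundedGT σ := by
    refine ⟨?_⟩
    exact (WellOrderingRel.isWellOrder (α := σ)).wf
  let mo : MonomialOrder σ := MonomialOrder.lex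
  intro w hw
  by_contra hne
  obtain ⟨i₀, hi₀⟩ := Function.ne_iff.1 hne
  obtain ⟨i, hi, hmax⟩ := (Finset.univ.filter fun i => w i ≠ 0).exists_max_image
    (fun i => mo.toSyn (mo.degree (w i))) ⟨i₀, by simpa using hi₀⟩
  have hi' : w i ≠ 0 := by simpa using hi
  have hmax' : ∀ j, mo.toSyn (mo.degree (w j)) ≤ mo.toSyn (mo.degree (w i)) := by
    intro j
    by_cases hj : w j = 0
    · rw [hj, mo.degree_zero, map_zero]
      exact mo.zero_le _
    · exact hmax j (by simpa using hj)
  obtain ⟨d, hd⟩ : ∃ d, d = mo.degree (w i) := ⟨_, rfl⟩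
  have hτd : ∀ p : MvPolynomial σ Q₀, mo.degree (MvPolynomial.map τ p) = mo.degree p := by
    intro p
    unfold MonomialOrder.degree
    rw [MvPolynomial.support_map_of_injective p hA.inj]
  have hcoeff : (hf (MvPolynomial.map τ) (A.map MvPolynomial.C) w w).coeff (d + d) =
      hf τ A (fun j => (w j).coeff d) (fun j => (w j).coeff d) := by
    unfold hf
    rw [MvPolynomial.coeff_sum]
    refine Finset.sum_congr rfl fun j _ => ?_
    rw [MvPolynomial.coeff_sum]
    refine Finset.sum_congr rfl fun k _ => ?_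
    rw [Matrix.map_apply, mul_assoc, MvPolynomial.coeff_C_mul, mul_assoc]
    congr 1
    rw [mo.coeff_mul_of_add_of_degree_le (by rw [hτd]; exact hd ▸ hmax' j) (hd ▸ hmax' k),
      MvPolynomial.coeff_map]
  rw [hw, MvPolynomial.coeff_zero] at hcoeff
  have h1 := congrFun (hA.anis _ hcoeff.symm) i
  apply hi'
  rw [← mo.leadingCoeff_eq_zero_iff, MonomialOrder.leadingCoeff, ← hd]
  exact h1

/-- **polynomial rings** in any set of variables -/
theorem mv (hC : ClosedE C) (hS : ∀ (G : Type) [Group G], Group.IsSolvable G → C G)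
    (σ Q₀ : Type) [CommRing Q₀] [IsDomain Q₀] {τ : Q₀ →+* Q₀} {A : Matrix (Fin m) (Fin m) Q₀}
    (hA : Her τ A) :
    C (Uni (MvPolynomial.map (σ := σ) τ) (A.map (MvPolynomial.C (σ := σ)))) ↔ C (Uni τ A) := by
  constructor
  · intro h
    exact incl hC _ (MvPolynomial.C_injective σ Q₀) (fun r => (MvPolynomial.map_C τ r).symm) h
  · intro h
    refine spec_hom hC hS (Pool.Agent.U709.mvT σ Q₀) ?_ MvPolynomial.constantCoeff
      (MvPolynomial.C (σ := σ)) (MvPolynomial.C_injective σ Q₀) ?_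
      (τ := MvPolynomial.map (σ := σ) τ) ?_ (fun r => (MvPolynomial.map_C τ r).symm) A
      (Her_mv σ Q₀ hA) _ ?_ h
    · intro a b hab
      rw [← Pool.Agent.U709.mvT_eval σ Q₀ a, hab, Pool.Agent.U709.mvT_eval]
    · intro r
      exact Pool.Agent.U709.mvT_coeff σ Q₀ r
    · intro r
      have h1 : (Pool.Agent.U709.mvT σ Q₀).comp (MvPolynomial.map τ) =
          (Polynomial.mapRingHom (MvPolynomial.map (σ := σ) τ)).comp
            (Pool.Agent.U709.mvT σ Q₀) := by
        apply MvPolynomial.ringHom_ext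
        · intro r
          simp [Pool.Agent.U709.mvT]
        · intro i
          simp [Pool.Agent.U709.mvT]
      exact congrArg (fun f : MvPolynomial σ Q₀ →+* Polynomial (MvPolynomial σ Q₀) => f r) h1
    · intro i j
      simp [Pool.Agent.U709.mvT]

end mv

section fld

variable {m : ℕ}

theorem uni_sub (hC : ClosedE C) {R : Type} [CommRing R] (τ : R →+* R)
    (A : Matrix (Fin m) (Fin m) R) (h : C (GL (Ix m) R)) : C (Uni τ A) :=
  hC.base.of_injective _ _ (Subgroup.subtype _) (Subgroup.subtype_injective _) h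

/-- **polynomial rings over rings of algebraic elements** -/
theorem alg (hC : ClosedE C) (hS : ∀ (G : Type) [Group G], Group.IsSolvable G → C G)
    {k : Type} [Field k] (hk : ∀ n : ℕ, C (GL (Fin n) k)) (K : Type) [Field K] [Algebra k K]
    [Algebra.IsAlgebraic k K] (σ : Type) (Z : Type) [CommRing Z] (ι : Z →+* K)
    (hι : Function.Injective ι) {τ : Z →+* Z} {A : Matrix (Fin m) (Fin m) Z} (hA : Her τ A) :
    C (Uni (MvPolynomial.map (σ := σ) τ) (A.map (MvPolynomial.C (σ := σ)))) := by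
  have hd : IsDomain Z := hι.isDomain ι
  rw [mv hC hS σ Z hA]
  refine uni_sub hC τ A ?_
  have h1 : C (GL (Ix m) K) :=
    Pool.Agent.U722.OG.gl_fin hC (Pool.Agent.U293.GE.GL_alg (F := k) (K := K) hC hk) K
  exact hC.base.of_injective _ _ _ (gl_inj (m := m) ι hι) h1

/-- **finitely generated domains with one place at infinity** -/
theorem fin_type (hC : ClosedE C) (hS : ∀ (G : Type) [Group G], Group.IsSolvable G → C G)
    {k : Type} [Field k] (hk : ∀ n : ℕ, C (GL (Fin n) k)) {R : Type} [CommRing R] [IsDomain R]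
    [Algebra k R] [Algebra.FiniteType k R] {δ : R → ℕ} (hδ : IsDegree δ)
    (hfin : ∀ n : ℕ, ∃ W : Submodule k R, Module.Finite k W ∧ ∀ r, r ≠ 0 → δ r ≤ n → r ∈ W)
    {τ : R →+* R} {A : Matrix (Fin m) (Fin m) R} (hA : AnD δ τ A) :
    C (Uni τ A) := by
  obtain ⟨M, hM⟩ := Ideal.exists_maximal R
  have hft : Algebra.FiniteType k (R ⧸ M) :=
    Algebra.FiniteType.of_surjective (Ideal.Quotient.mkₐ k M) (Ideal.Quotient.mkₐ_surjective k M)
  let _ : Field (R ⧸ M) := Ideal.Quotient.field M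
  have hf : Module.Finite k (R ⧸ M) := finite_of_finite_type_of_isJacobsonRing k (R ⧸ M)
  have h1 : C (GL (Ix m) (R ⧸ M)) := Pool.Agent.U722.OG.gl_fin hC hk (R ⧸ M)
  have hN : IsNoetherianRing R := Algebra.FiniteType.isNoetherianRing k R
  refine main_dom hC hS hδ hA (Ideal.Quotient.mk M) ?_ (Uni τ A) le_rfl ?_
  · rw [Ideal.mk_ker]
    intro n
    obtain ⟨W, hW, hWn⟩ := hfin n
    have hart : IsArtinian k W := inferInstance
    let f : ℕ →o (Submodule k W)ᵒᵈ :=
      ⟨fun j => OrderDual.toDual (((M ^ j).restrictScalars k).comap W.subtype), by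
        intro i j hij
        change ((M ^ j).restrictScalars k).comap W.subtype ≤
          ((M ^ i).restrictScalars k).comap W.subtype
        intro x hx
        exact Ideal.pow_le_pow_right hij hx⟩
    obtain ⟨p, hp⟩ := IsArtinian.monotone_stabilizes f
    refine ⟨p, fun r hr h0 => ?_⟩
    by_contra hn
    have hrW : r ∈ W := hWn r h0 (by omega)
    have hall : ∀ j, r ∈ M ^ j := by
      intro j
      rcases le_total p j with hj | hj
      · have h2 : f p = f j := hp j hj
        have h3 : (⟨r, hrW⟩ : W) ∈ ((M ^ p).restrictScalars k).comap W.subtype := hr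
        have h4 : ((M ^ p).restrictScalars k).comap W.subtype =
          ((M ^ j).restrictScalars k).comap W.subtype := h2
        rw [h4] at h3
        exact h3
      · exact Ideal.pow_le_pow_right hj hr
    have h5 : r ∈ (⨅ j : ℕ, M ^ j) := by
      rw [Ideal.mem_iInf]
      exact hall
    rw [Ideal.iInf_pow_eq_bot_of_isDomain M hM.ne_top] at h5
    exact h0 h5
  · exact hC.base.of_injective _ _ (Subgroup.subtype _) (Subgroup.subtype_injective _) h1

end fld

end Pool.Agent.U722.UG
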