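import Pool.Agent.U722.UG.Iw
import Pool.Agent.U722.OG.Dom

/-!
# Groups of isometries over a field with a discrete valuation; matrices
-/

set_option autoImplicit false

namespace Pool.Agent.U722.UG

open Matrix
open Pool.Agent.U709.BT
open Pool.Agent.Y110.FJ (ClosedE)
open Pool.Agent.U722.OG (E Lat Ix eqv lin lin_apply)

variable {C : ∀ (G : Type) [Group G], Prop}

/-- **groups of isometries over a field with a discrete valuation** -/
theorem main_val (hC : ClosedE C) (hS : ∀ (G : Type) [Group G], Group.IsSolvable G → C G)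
    {F : Type} [Field F] {V : DV F} {m : ℕ} {τ : F →+* F} {A : Matrix (Fin m) (Fin m) F}
    (hA : An V τ A) {Γ : Type} [Group Γ] (ρ : Γ →* Iso τ A) (N : ℕ → Subgroup Γ)
    [hN : ∀ k, (N k).Normal] (hmono : ∀ k, N (k + 1) ≤ N k)
    (hcomm : ∀ k, ∀ x ∈ N k, ∀ y ∈ N k, x * y * x⁻¹ * y⁻¹ ∈ N (k + 1))
    (h0 : C (Γ ⧸ N 0))
    (hsep : ∀ n : ℕ, ∃ k, ∀ x ∈ N k, (∀ v, Lat V 0 v → Lat V (-(n : ℤ)) ((ρ x).1 v)) → x = 1) :
    C Γ := by
  let act : MulAction Γ (iwd hA).Vt := MulAction.compHom _ ρ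
  refine Pool.Agent.N24.TR.tree_local hC (iwd hA).isTree
    (fun g u w h => (iwd hA).tr_act (ρ g) u w h) ?_
  intro u
  obtain ⟨n, hn⟩ := stab_bnd hA u
  obtain ⟨k, hk⟩ := hsep n
  refine ⟨Γ ⧸ N k, inferInstance, QuotientGroup.mk' (N k),
    Pool.Agent.U709.chain_quot hC hS N hmono hcomm h0 k, ?_⟩
  intro g hg h1
  exact hk g ((QuotientGroup.eq_one_iff g).1 h1) (hn (ρ g) hg)

section mat

variable {R : Type} [CommRing R] {m : ℕ}

/-- the hermitian form -/
def HH (τ : R →+* R) (A : Matrix (Fin m) (Fin m) R) (v v' : Ix m → R) : R :=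
  τ (v (Sum.inl 0)) * v' (Sum.inl 1) + τ (v (Sum.inl 1)) * v' (Sum.inl 0) +
    hf τ A (fun i => v (Sum.inr i)) (fun i => v' (Sum.inr i))

theorem HH_smul (τ : R →+* R) (A : Matrix (Fin m) (Fin m) R) (c d : R) (v v' : Ix m → R) :
    HH τ A (c • v) (d • v') = τ c * d * HH τ A v v' := by
  unfold HH
  have h1 : (fun i => (c • v) (Sum.inr i)) = c • fun i => v (Sum.inr i) := rfl
  have h2 : (fun i => (d • v') (Sum.inr i)) = d • fun i => v' (Sum.inr i) := rfl
  rw [h1, h2, hf_smul, hf_smul_left]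
  simp only [Pi.smul_apply, smul_eq_mul, map_mul]
  ring

/-- the unitary group -/
def Uni (τ : R →+* R) (A : Matrix (Fin m) (Fin m) R) : Subgroup (GL (Ix m) R) where
  carrier := {g | ∀ v v', HH τ A (g.1 *ᵥ v) (g.1 *ᵥ v') = HH τ A v v'}
  one_mem' := fun v v' => by
    change HH τ A ((1 : Matrix (Ix m) (Ix m) R) *ᵥ v) ((1 : Matrix (Ix m) (Ix m) R) *ᵥ v') = _
    rw [Matrix.one_mulVec, Matrix.one_mulVec]
  mul_mem' := by
    intro g h hg hh v v'
    change HH τ A ((g.1 * h.1) *ᵥ v) ((g.1 * h.1) *ᵥ v') = _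
    rw [← Matrix.mulVec_mulVec, ← Matrix.mulVec_mulVec, hg, hh]
  inv_mem' := by
    intro g hg v v'
    have h1 := hg ((g⁻¹).1 *ᵥ v) ((g⁻¹).1 *ᵥ v')
    have h2 : ∀ v, g.1 *ᵥ ((g⁻¹).1 *ᵥ v) = v := by
      intro v
      rw [Matrix.mulVec_mulVec]
      have : g.1 * (g⁻¹).1 = 1 := g.mul_inv
      rw [this, Matrix.one_mulVec]
    rw [h2, h2] at h1
    exact h1.symm

theorem hf_map {S : Type} [CommRing S] (φ : R →+* S) {τ : R →+* R} {σ : S →+* S}
    (h : ∀ r, φ (τ r) = σ (φ r)) (A : Matrix (Fin m) (Fin m) R)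
    (w w' : Fin m → R) : hf σ (A.map φ) (fun i => φ (w i)) (fun i => φ (w' i)) =
      φ (hf τ A w w') := by
  unfold hf
  rw [map_sum]
  refine Finset.sum_congr rfl fun i _ => ?_
  rw [map_sum]
  refine Finset.sum_congr rfl fun j _ => ?_
  rw [map_mul, map_mul, h]
  rfl

theorem HH_map {S : Type} [CommRing S] (φ : R →+* S) {τ : R →+* R} {σ : S →+* S}
    (h : ∀ r, φ (τ r) = σ (φ r)) (A : Matrix (Fin m) (Fin m) R)
    (v v' : Ix m → R) : HH σ (A.map φ) (fun i => φ (v i)) (fun i => φ (v' i)) =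
      φ (HH τ A v v') := by
  unfold HH
  rw [map_add, map_add, map_mul, map_mul, h, h, ← hf_map φ h]

end mat

section field

variable {F : Type} [Field F] {m : ℕ}

theorem H_eqv (τ : F →+* F) (A : Matrix (Fin m) (Fin m) F) (v v' : Ix m → F) :
    H τ A (eqv F m v) (eqv F m v') = HH τ A v v' := rfl

theorem lin_mem {τ : F →+* F} {A : Matrix (Fin m) (Fin m) F} {g : GL (Ix m) F}
    (hg : g ∈ Uni τ A) : lin g ∈ Iso τ A := by
  intro p p'
  rw [lin_apply, lin_apply, H_eqv, hg, ← H_eqv, LinearEquiv.apply_symm_apply,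
    LinearEquiv.apply_symm_apply]

end field

end Pool.Agent.U722.UG
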